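import Mathlib

set_option autoImplicit false

namespace Pool.Agent.P.MP_f97ab1_an

open Finset

/-- The tent function of width `σ`, i.e. the Fourier transform of the Fejer kernel. -/
noncomputable def tent (σ : ℕ) (m : ℤ) : ℝ := max 0 (1 - |(m : ℝ)| / σ)

lemma tent_nonneg (σ : ℕ) (m : ℤ) : 0 ≤ tent σ m := le_max_left _ _

lemma tent_eq_zero {σ : ℕ} (hσ : 0 < σ) {m : ℤ} (h : (σ : ℤ) ≤ |m|) : tent σ m = 0 := by
  unfold tent
  refine max_eq_left ?_
  have h1 : (0 : ℝ) < σ := by exact_mod_cast hσ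
  have h2 : (σ : ℝ) ≤ |(m : ℝ)| := by exact_mod_cast h
  rw [sub_nonpos, le_div_iff₀ h1]
  linarith

lemma abs_lt_of_tent_ne_zero {σ : ℕ} (hσ : 0 < σ) {m : ℤ} (h : tent σ m ≠ 0) : |m| < σ := by
  by_contra h'
  exact h (tent_eq_zero hσ (not_lt.1 h'))

lemma tent_of_abs_le {σ : ℕ} (hσ : 0 < σ) {m : ℤ} (h : |m| ≤ (σ : ℤ)) :
    tent σ m = 1 - |(m : ℝ)| / σ := by
  unfold tent
  refine max_eq_right ?_
  have h1 : (0 : ℝ) < σ := by exact_mod_cast hσ
  have h2 : |(m : ℝ)| ≤ (σ : ℝ) := by exact_mod_cast h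
  rw [sub_nonneg, div_le_iff₀ h1]
  linarith

lemma tent_zero (σ : ℕ) : tent σ 0 = 1 := by simp [tent]

lemma tent_neg (σ : ℕ) (m : ℤ) : tent σ (-m) = tent σ m := by simp [tent]

lemma tent_one (m : ℤ) : tent 1 m = if m = 0 then 1 else 0 := by
  split_ifs with h
  · rw [h, tent_zero]
  · exact tent_eq_zero one_pos (by simpa using Int.one_le_abs h)

lemma tent_add {σ : ℕ} (hσ : 0 < σ) {r : ℤ} (h0 : 0 ≤ r) (h1 : r ≤ σ) :
    tent σ r + tent σ (r - σ) = 1 := by
  rw [tent_of_abs_le hσ (by rw [abs_of_nonneg h0]; exact h1),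
    tent_of_abs_le hσ (by rw [abs_of_nonpos (by omega)]; omega)]
  have h2 : (0 : ℝ) < σ := by exact_mod_cast hσ
  have h3 : (0 : ℝ) ≤ r := by exact_mod_cast h0
  have h4 : (r : ℝ) ≤ σ := by exact_mod_cast h1
  push_cast
  rw [abs_of_nonneg h3, abs_of_nonpos (by linarith)]
  field_simp
  ring

lemma tent_sum {σ : ℕ} (hσ : 0 < σ) (R : ℕ) {m : ℤ} (h0 : 0 ≤ m) (h1 : m ≤ R) :
    ∑ i : Fin (R + 2), tent σ (m - (i : ℕ) * σ) = 1 := by
  rw [Fin.sum_univ_eq_sum_range (fun i => tent σ (m - (i : ℕ) * σ)) (R + 2)]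
  obtain ⟨n, rfl⟩ := Int.eq_ofNat_of_zero_le h0
  have hn : n ≤ R := by exact_mod_cast h1
  have hq : n / σ ≤ R := (Nat.div_le_self _ _).trans hn
  have hdm : (n : ℤ) = (σ : ℤ) * (n / σ : ℕ) + (n % σ : ℕ) := by
    exact_mod_cast (Nat.div_add_mod n σ).symm
  have hr : ((n % σ : ℕ) : ℤ) < σ := by exact_mod_cast Nat.mod_lt n hσ
  have hr0 : (0 : ℤ) ≤ (n % σ : ℕ) := Int.natCast_nonneg _
  have hσ' : (0 : ℤ) < σ := by exact_mod_cast hσ
  rw [Finset.sum_eq_add (n / σ) (n / σ + 1) (by omega)]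
  · have e1 : (n : ℤ) - ((n / σ : ℕ) : ℤ) * σ = (n % σ : ℕ) := by linarith
    have e2 : (n : ℤ) - ((n / σ + 1 : ℕ) : ℤ) * σ = (n % σ : ℕ) - σ := by push_cast at *; linarith
    rw [e1, e2]
    exact tent_add hσ hr0 hr.le
  · intro c _ hc
    refine tent_eq_zero hσ ?_
    rcases lt_or_gt_of_ne hc.1 with h | h
    · have : (c : ℤ) + 1 ≤ (n / σ : ℕ) := by exact_mod_cast h
      rw [le_abs]
      left
      nlinarith
    · have : ((n / σ : ℕ) : ℤ) + 2 ≤ c := by
        have := hc.2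
        have : n / σ + 2 ≤ c := by omega
        exact_mod_cast this
      rw [le_abs]
      right
      nlinarith
  · intro h
    exact absurd (Finset.mem_range.2 (by omega)) h
  · intro h
    exact absurd (Finset.mem_range.2 (by omega)) h

lemma tent_count {σ : ℕ} (hσ : 0 < σ) (m : ℤ) :
    (∑ a ∈ range σ, ∑ b ∈ range σ, if (a : ℤ) - b + m = 0 then (1 : ℝ) else 0) / σ = tent σ m := by
  have h1 : ∀ a ∈ range σ, (∑ b ∈ range σ, if (a : ℤ) - b + m = 0 then (1 : ℝ) else 0) =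
      if (a : ℤ) ∈ Finset.Ico (-m) (σ - m) then 1 else 0 := by
    intro a _
    split_ifs with h
    · rw [Finset.mem_Ico] at h
      rw [Finset.sum_eq_single (a + m).toNat]
      · rw [if_pos (by omega)]
      · intro b _ hb
        rw [if_neg (by omega)]
      · intro hb
        exact absurd (Finset.mem_range.2 (by omega)) hb
    · rw [Finset.mem_Ico] at h
      refine Finset.sum_eq_zero (fun b hb => ?_)
      rw [Finset.mem_range] at hb
      rw [if_neg (by omega)]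
  rw [Finset.sum_congr rfl h1, Finset.sum_boole]
  have h2 : ((range σ).filter (fun a : ℕ => (a : ℤ) ∈ Finset.Ico (-m) (σ - m))) =
      Finset.Ico (-m).toNat (min (σ : ℤ) (σ - m)).toNat := by
    ext a
    simp only [Finset.mem_filter, Finset.mem_range, Finset.mem_Ico]
    omega
  rw [h2, Nat.card_Ico]
  have h3 : (0 : ℝ) < σ := by exact_mod_cast hσ
  by_cases h : (σ : ℤ) ≤ |m|
  · rw [tent_eq_zero hσ h]
    have : (min (σ : ℤ) (σ - m)).toNat - (-m).toNat = 0 := by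
      rcases le_abs.1 h with h | h <;> omega
    rw [this]
    simp
  · rw [tent_of_abs_le hσ (not_le.1 h).le]
    have h4 : (((min (σ : ℤ) (σ - m)).toNat - (-m).toNat : ℕ) : ℤ) = σ - |m| := by
      rcases abs_cases m with h5 | h5 <;> omega
    have h5 : (((min (σ : ℤ) (σ - m)).toNat - (-m).toNat : ℕ) : ℝ) = σ - |(m : ℝ)| := by
      exact_mod_cast h4
    rw [h5]
    field_simp

end Pool.Agent.P.MP_f97ab1_an
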