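import Pool.Agent.P.MP_f97ab1_an.Level
import Pool.Agent.P.MP_f97ab1_an.Tent

set_option autoImplicit false

namespace Pool.Agent.P.MP_f97ab1_an

open Finset

/-- A finite dimensional space with a good basis, through which the identity of `E` factors and
which is complemented in a finite l1-sum of copies of `E`. -/
structure Block {E : Type} [AddCommGroup E] [Module ℂ E] (ν : Seminorm ℂ E) where
  ι : Type
  [fι : Fintype ι]
  [oι : LinearOrder ι]
  [nι : Nonempty ι]
  M : Seminorm ℂ (ι → ℂ)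
  δ : E →ₗ[ℂ] (ι → ℂ)
  σ : (ι → ℂ) →ₗ[ℂ] E
  σδ : ∀ x, σ (δ x) = x
  δ_le : ∀ x, M (δ x) ≤ 800 * ν x
  σ_le : ∀ c, ν (σ c) ≤ 800 * M c
  cut_le : ∀ a c, M (cut a * c) ≤ 800 * M c
  R : Retr M ν 800

attribute [instance] Block.fι Block.oι Block.nι

theorem Level.block {E : Type} [AddCommGroup E] [Module ℂ E] {ν N : Seminorm ℂ E} (L : Level ν N)
    (h1 : ∀ x, ν x ≤ N x) (h2 : ∀ x, N x ≤ 5 * ν x) : Nonempty (Block ν) := by
  set M : Seminorm ℂ (L.ι → ℂ) := N.comp L.σ + (l1fin ν L.T).comp L.jj with hM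
  have Ma : ∀ c, M c = N (L.σ c) + l1fin ν L.T (L.jj c) := fun c => rfl
  set jj' : (L.ι → ℂ) →ₗ[ℂ] (Option L.T → E) :=
    LinearMap.pi (fun o => o.elim L.σ (fun t => (LinearMap.proj t).comp L.jj)) with hjj'
  set qq' : (Option L.T → E) →ₗ[ℂ] (L.ι → ℂ) :=
    L.δ.comp (LinearMap.proj none) + L.qq.comp (LinearMap.funLeft ℂ E some) with hqq'
  have qa : ∀ f, qq' f = L.δ (f none) + L.qq (fun t => f (some t)) := fun f => rfl
  refine ⟨{ ι := L.ι, M := M, δ := L.δ, σ := L.σ, σδ := L.σδ, δ_le := ?_, σ_le := ?_,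
            cut_le := ?_,
            R := { T := Option L.T, jj := jj', qq := qq', qj := ?_, j_le := ?_, q_le := ?_ } }⟩
  · intro x
    rw [Ma, L.σδ, L.jδ, map_zero, add_zero]
    have := h2 x
    have := apply_nonneg ν x
    linarith
  · intro c
    rw [Ma]
    have := h1 (L.σ c)
    have := apply_nonneg N (L.σ c)
    have := apply_nonneg (l1fin ν L.T) (L.jj c)
    linarith
  · intro a c
    rw [Ma, Ma]
    have := L.cut_le a c
    have := apply_nonneg N (L.σ c)
    linarith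
  · intro c
    rw [qa]
    exact L.split c
  · intro c
    rw [Ma, l1fin_apply, Fintype.sum_option]
    have e1 : jj' c none = L.σ c := rfl
    have e2 : ∑ t, ν (jj' c (some t)) = l1fin ν L.T (L.jj c) := rfl
    rw [e1, e2]
    have := h1 (L.σ c)
    have := apply_nonneg N (L.σ c)
    have := apply_nonneg (l1fin ν L.T) (L.jj c)
    linarith
  · intro f
    rw [Ma, qa, map_add L.σ, map_add L.jj, L.σδ, L.σq, L.jδ, add_zero, zero_add, l1fin_apply ν _ f,
      Fintype.sum_option]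
    have e1 := L.jq_le (fun t => f (some t))
    rw [l1fin_apply ν _ (fun t => f (some t))] at e1
    have e2 := h2 (f none)
    have e3 := apply_nonneg ν (f none)
    have e4 : 0 ≤ ∑ t, ν (f (some t)) := Finset.sum_nonneg (fun t _ => apply_nonneg _ _)
    linarith

section Concrete

variable {Λ : Type} (ν : Seminorm ℂ (Λ → ℂ))

lemma card_le_five {n : ℕ} (P : Fin n → Prop) [DecidablePred P] (c : ℤ)
    (h : ∀ a, P a → c - 2 ≤ (a : ℕ) ∧ ((a : ℕ) : ℤ) ≤ c + 2) :
    (Finset.univ.filter P).card ≤ 5 := by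
  have h1 : (Finset.Icc (c - 2) (c + 2)).card = 5 := by
    rw [Int.card_Icc]
    have : c + 2 + 1 - (c - 2) = 5 := by ring
    rw [this]
    rfl
  rw [← h1]
  refine Finset.card_le_card_of_injOn (fun a : Fin n => ((a : ℕ) : ℤ)) ?_ ?_
  · intro a ha
    simp only [Finset.coe_filter, Finset.mem_univ, true_and, Set.mem_ofPred_eq] at ha
    simpa using h a ha
  · intro a _ b _ hab
    exact Fin.ext (by simpa using hab)

lemma loc_le {n : ℕ} (t : Fin n → Λ → ℂ) (ht : ∀ a x, ν (t a * x) ≤ ν x) (u : Λ → ℂ) (c : ℤ)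
    (h : ∀ a, t a * u ≠ 0 → c - 2 ≤ (a : ℕ) ∧ ((a : ℕ) : ℤ) ≤ c + 2) (y : Λ → ℂ) :
    ∑ a, ν (t a * (u * y)) ≤ 5 * ν (u * y) := by
  classical
  have h1 := card_le_five (fun a => t a * u ≠ 0) c h
  rw [← Finset.sum_filter_of_ne (p := fun a => t a * u ≠ 0)]
  · calc ∑ a ∈ Finset.univ.filter (fun a => t a * u ≠ 0), ν (t a * (u * y))
        ≤ ∑ _a ∈ Finset.univ.filter (fun a => t a * u ≠ 0), ν (u * y) :=
          Finset.sum_le_sum (fun a _ => ht a _)
      _ = (Finset.univ.filter (fun a => t a * u ≠ 0)).card * ν (u * y) := by simp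
      _ ≤ 5 * ν (u * y) := by
          refine mul_le_mul_of_nonneg_right ?_ (apply_nonneg _ _)
          exact_mod_cast h1
  · intro a _ ha h0
    apply ha
    rw [← mul_assoc, h0]
    simp

lemma compare_le {n : ℕ} (t t' : Fin n → Λ → ℂ) (ht' : ∀ a x, ν (t' a * x) ≤ ν x)
    (hs : ∑ i, t i = 1) (c : Fin n → ℤ)
    (h : ∀ i a, t' a * t i ≠ 0 → c i - 2 ≤ (a : ℕ) ∧ ((a : ℕ) : ℤ) ≤ c i + 2) (x : Λ → ℂ) :
    ∑ a, ν (t' a * x) ≤ 5 * ∑ i, ν (t i * x) := by
  calc ∑ a, ν (t' a * x) ≤ ∑ a, ∑ i, ν (t' a * (t i * x)) := by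
        refine Finset.sum_le_sum (fun a _ => ?_)
        refine le_trans (le_of_eq ?_) (semi_sum_le ν _ _)
        rw [← Finset.mul_sum, ← Finset.sum_mul, hs, one_mul]
    _ = ∑ i, ∑ a, ν (t' a * (t i * x)) := Finset.sum_comm
    _ ≤ ∑ i, 5 * ν (t i * x) :=
        Finset.sum_le_sum (fun i _ => loc_le ν t' ht' (t i) (c i) (h i) x)
    _ = 5 * ∑ i, ν (t i * x) := by rw [Finset.mul_sum]

theorem block_exists [Fintype Λ] [Nonempty Λ] (ℓ : Λ → ℤ) (hinj : Function.Injective ℓ)
    (h0 : ∀ k, 0 ≤ ℓ k)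
    (hν : ∀ (σ : ℕ) (c : ℤ) (x : Λ → ℂ), 0 < σ →
      ν ((fun k => (tent σ (ℓ k - c) : ℂ)) * x) ≤ ν x) :
    Nonempty (Block ν) := by
  classical
  obtain ⟨R, hR⟩ : ∃ R : ℕ, ∀ k, ℓ k ≤ R := by
    obtain ⟨B, hB⟩ := (Set.finite_range ℓ).bddAbove
    exact ⟨B.toNat, fun k => (hB ⟨k, rfl⟩).trans (Int.self_le_toNat B)⟩
  set t : ℕ → Fin (R + 2) → Λ → ℂ :=
    fun s i k => (tent (2 ^ s) (ℓ k - (i : ℕ) * (2 ^ s : ℕ)) : ℂ) with ht
  have hp : ∀ s : ℕ, 0 < 2 ^ s := fun s => by positivity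
  have tb : ∀ s i x, ν (t s i * x) ≤ ν x := fun s i x => hν _ _ x (hp s)
  have tsum : ∀ s, ∑ i, t s i = 1 := by
    intro s
    funext k
    rw [Finset.sum_apply]
    have := tent_sum (hp s) R (h0 k) (hR k)
    simp only [ht, Pi.one_apply]
    exact_mod_cast this
  have tsupp : ∀ s s' a i, t s a * t s' i ≠ 0 → ∃ m : ℤ,
      |m - (a : ℕ) * (2 ^ s : ℕ)| < (2 ^ s : ℕ) ∧ |m - (i : ℕ) * (2 ^ s' : ℕ)| < (2 ^ s' : ℕ) := by
    intro s s' a i h
    obtain ⟨k, hk⟩ := Function.ne_iff.1 h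
    simp only [Pi.mul_apply, Pi.zero_apply, ne_eq, mul_eq_zero, not_or, ht,
      Complex.ofReal_eq_zero] at hk
    exact ⟨ℓ k, abs_lt_of_tent_ne_zero (hp s) hk.1, abs_lt_of_tent_ne_zero (hp s') hk.2⟩
  have tsame : ∀ s i a, t s a * t s i ≠ 0 →
      ((i : ℕ) : ℤ) - 2 ≤ (a : ℕ) ∧ ((a : ℕ) : ℤ) ≤ (i : ℕ) + 2 := by
    intro s i a h
    obtain ⟨m, h1, h2⟩ := tsupp s s a i h
    have hp' : (0 : ℤ) < (2 ^ s : ℕ) := by exact_mod_cast hp s
    rw [abs_lt] at h1 h2
    constructor <;> nlinarith [h1.1, h1.2, h2.1, h2.2]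
  have tup : ∀ s i a, t s a * t (s + 1) i ≠ 0 →
      2 * ((i : ℕ) : ℤ) - 2 ≤ (a : ℕ) ∧ ((a : ℕ) : ℤ) ≤ 2 * (i : ℕ) + 2 := by
    intro s i a h
    obtain ⟨m, h1, h2⟩ := tsupp s (s + 1) a i h
    have hp' : (0 : ℤ) < (2 ^ s : ℕ) := by exact_mod_cast hp s
    have e : ((2 ^ (s + 1) : ℕ) : ℤ) = 2 * (2 ^ s : ℕ) := by push_cast; ring
    rw [e] at h2
    rw [abs_lt] at h1 h2
    have g1 : 2 * ((i : ℕ) : ℤ) - 3 < (a : ℕ) := by nlinarith [h1.1, h1.2, h2.1, h2.2]
    have g2 : ((a : ℕ) : ℤ) < 2 * (i : ℕ) + 3 := by nlinarith [h1.1, h1.2, h2.1, h2.2]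
    omega
  have tdown : ∀ s i a, t (s + 1) a * t s i ≠ 0 →
      ((i : ℕ) : ℤ) / 2 - 2 ≤ (a : ℕ) ∧ ((a : ℕ) : ℤ) ≤ (i : ℕ) / 2 + 2 := by
    intro s i a h
    rw [mul_comm] at h
    have := tup s a i h
    omega
  set φ : ℕ → (Λ → ℂ) →ₗ[ℂ] (Fin (R + 2) → Λ → ℂ) :=
    fun s => LinearMap.pi (fun i => LinearMap.mulLeft ℂ (t s i)) with hφ
  set N : ℕ → Seminorm ℂ (Λ → ℂ) := fun s => (l1fin ν _).comp (φ s) with hN
  have Na : ∀ s x, N s x = ∑ i, ν (t s i * x) := fun s x => rfl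
  set nb : ℕ → Fin (R + 2) → Finset (Fin (R + 2)) :=
    fun s i => Finset.univ.filter (fun a => t s a * t s i ≠ 0) with hnb
  have nbcard : ∀ s i, (nb s i).card ≤ 5 := fun s i => card_le_five _ _ (tsame s i)
  set ψ : ℕ → (Fin (R + 2) → Λ → ℂ) →ₗ[ℂ] (Λ → ℂ) :=
    fun s => ∑ i, (LinearMap.mulLeft ℂ (∑ a ∈ nb s i, t s a)).comp (LinearMap.proj i) with hψ
  have ψa : ∀ s h, ψ s h = ∑ i, (∑ a ∈ nb s i, t s a) * h i := by
    intro s h
    simp [hψ, LinearMap.sum_apply]
  have hψφ : ∀ s x, ψ s (φ s x) = x := by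
    intro s x
    rw [ψa]
    have : ∀ i, (∑ a ∈ nb s i, t s a) * φ s x i = t s i * x := by
      intro i
      change (∑ a ∈ nb s i, t s a) * (t s i * x) = _
      rw [← mul_assoc]
      congr 1
      rw [Finset.sum_mul, hnb, Finset.sum_filter_ne_zero, ← Finset.sum_mul, tsum, one_mul]
    simp only [this]
    rw [← Finset.sum_mul, tsum, one_mul]
  have hψle : ∀ s h, N s (ψ s h) ≤ 25 * l1fin ν _ h := by
    intro s h
    rw [ψa, l1fin_apply, Finset.mul_sum]
    refine (semi_sum_le _ _ _).trans (Finset.sum_le_sum (fun i _ => ?_))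
    rw [Finset.sum_mul]
    refine (semi_sum_le _ _ _).trans ?_
    calc ∑ a ∈ nb s i, N s (t s a * h i) ≤ ∑ _a ∈ nb s i, 5 * ν (h i) := by
          refine Finset.sum_le_sum (fun a _ => ?_)
          rw [Na]
          have e1 := loc_le ν (t s) (tb s) (t s a) _ (tsame s a) (h i)
          have e2 := tb s a (h i)
          linarith
      _ = (nb s i).card * (5 * ν (h i)) := by simp
      _ ≤ 5 * (5 * ν (h i)) := by
          refine mul_le_mul_of_nonneg_right ?_ (by positivity)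
          exact_mod_cast nbcard s i
      _ = 25 * ν (h i) := by ring
  have hup : ∀ s x, N (s + 1) x ≤ 5 * N s x := fun s x =>
    compare_le ν (t s) (t (s + 1)) (tb (s + 1)) (tsum s) _ (tdown s) x
  have hdown : ∀ s x, N s x ≤ 5 * N (s + 1) x := fun s x =>
    compare_le ν (t (s + 1)) (t s) (tb s) (tsum (s + 1)) _ (tup s) x
  have hlev : ∀ s, Nonempty (Level ν (N s)) := by
    intro s
    induction s with
    | zero =>
      let _ : LinearOrder Λ := LinearOrder.lift' ℓ hinj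
      refine ⟨{ ι := Λ, T := Empty, δ := LinearMap.id, σ := LinearMap.id, jj := 0, qq := 0,
                σδ := fun x => rfl, jδ := fun x => rfl, σq := fun f => rfl,
                split := fun c => by simp, jq_le := fun f => by simp [l1fin_apply],
                cut_le := ?_ }⟩
      intro a c
      simp only [LinearMap.id_apply, LinearMap.zero_apply, map_zero, add_zero, mul_zero]
      have e1 : N 0 (cut a * c) ≤ N 0 c := by
        rw [Na, Na]
        refine Finset.sum_le_sum (fun i _ => ?_)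
        by_cases hi : ∃ k, ℓ k = (i : ℕ) ∧ k < a
        · obtain ⟨k₀, hk₀, hlt⟩ := hi
          refine le_of_eq ?_
          congr 1
          funext k
          simp only [Pi.mul_apply, ht, pow_zero, tent_one, cut]
          by_cases hk : k = k₀
          · subst hk
            simp [hlt]
          · have : ¬ (ℓ k - (i : ℕ) * (1 : ℕ) = 0) := by
              intro h
              apply hk
              apply hinj
              rw [hk₀]
              simp at h
              linarith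
            rw [if_neg this]
            simp
        · have : t 0 i * (cut a * c) = 0 := by
            funext k
            simp only [Pi.mul_apply, ht, pow_zero, tent_one, cut, Pi.zero_apply]
            by_cases hk : k < a
            · have : ¬ (ℓ k - (i : ℕ) * (1 : ℕ) = 0) := by
                intro h
                apply hi
                refine ⟨k, ?_, hk⟩
                simp at h
                linarith
              rw [if_neg this]
              simp
            · simp [hk]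
          rw [this, map_zero]
          exact apply_nonneg _ _
      have := apply_nonneg (N 0) c
      linarith
    | succ s ih =>
      obtain ⟨L⟩ := ih
      exact L.step (φ s) (ψ s) (fun x => rfl) (hψφ s) (hψle s) (hup s) (hdown s)
  obtain ⟨L⟩ := hlev R
  refine L.block ?_ ?_
  · intro x
    rw [Na]
    refine le_trans (le_of_eq ?_) (semi_sum_le ν _ _)
    rw [← Finset.sum_mul, tsum, one_mul]
  · intro x
    rw [Na]
    have := loc_le ν (t R) (tb R) 1 0 ?_ x
    · simpa using this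
    · intro a ha
      obtain ⟨k, hk⟩ := Function.ne_iff.1 ha
      simp only [mul_one, Pi.zero_apply, ne_eq, ht, Complex.ofReal_eq_zero] at hk
      have h1 := abs_lt_of_tent_ne_zero (hp R) hk
      have h2 : (R : ℤ) < (2 ^ R : ℕ) := by exact_mod_cast Nat.lt_two_pow_self
      have h3 := hR k
      rw [abs_lt] at h1
      have hp' : (0 : ℤ) < (2 ^ R : ℕ) := by exact_mod_cast hp R
      constructor
      · omega
      · nlinarith [h1.1]

end Concrete

end Pool.Agent.P.MP_f97ab1_an
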