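import Pool.Agent.P.MP_f97ab1_an.Torus

set_option autoImplicit false

namespace Pool.Agent.P.MP_f97ab1_an

open Finset MeasureTheory Filter Topology

lemma integrable_chi_mul (k : Fr) (f : Lp ℂ 1 mu) : Integrable (fun z => chi k z * f z) mu :=
  (L1.integrable_coeFn f).bdd_mul (c := 1) (chi k).continuous.aestronglyMeasurable
    (Eventually.of_forall (fun z => (norm_chi k z).le))

/-- Fourier coefficients on `L^1`. -/
noncomputable def coef (k : Fr) : Lp ℂ 1 mu →L[ℂ] ℂ :=
  LinearMap.mkContinuous
    { toFun := fun f => ∫ z, chi (-k) z * f z ∂mu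
      map_add' := fun f g => by
        rw [← integral_add (integrable_chi_mul _ f) (integrable_chi_mul _ g)]
        refine integral_congr_ae ?_
        filter_upwards [Lp.coeFn_add f g] with z hz
        rw [hz, Pi.add_apply, mul_add]
      map_smul' := fun c f => by
        rw [RingHom.id_apply, smul_eq_mul, ← integral_const_mul]
        refine integral_congr_ae ?_
        filter_upwards [Lp.coeFn_smul c f] with z hz
        rw [hz, Pi.smul_apply, smul_eq_mul]
        ring } 1 (fun f => by
      rw [one_mul, L1.norm_eq_integral_norm]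
      refine (norm_integral_le_integral_norm _).trans (le_of_eq ?_)
      congr 1
      funext z
      rw [norm_mul, norm_chi, one_mul])

lemma coef_apply (k : Fr) (f : Lp ℂ 1 mu) : coef k f = ∫ z, chi (-k) z * f z ∂mu := rfl

lemma coef_toL (k : Fr) (p : Tr) : coef k (toL p) = p k := by
  classical
  rw [coef_apply]
  have h1 : ∫ z, chi (-k) z * toL p z ∂mu = ∫ z, ∑ k' ∈ p.support, p k' * chi (-k + k') z ∂mu := by
    refine integral_congr_ae ?_
    filter_upwards [toL_ae p] with z hz
    rw [hz, ev_apply, Finset.mul_sum]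
    refine Finset.sum_congr rfl (fun k' _ => ?_)
    rw [chi_add]
    ring
  rw [h1, integral_finsetSum _ (fun k' _ => cont_integrable (by fun_prop))]
  simp only [integral_const_mul, integral_chi, neg_add_eq_zero, mul_ite, mul_one, mul_zero]
  rw [Finset.sum_ite_eq]
  split_ifs with h
  · rfl
  · exact (Finsupp.notMem_support_iff.1 h).symm

lemma toL_injective : Function.Injective toL := by
  intro p q h
  ext k
  rw [← coef_toL, ← coef_toL, h]

/-- The star subalgebra generated by the characters. -/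
noncomputable def chiAlg : StarSubalgebra ℂ C(Tor, ℂ) where
  toSubalgebra := Algebra.adjoin ℂ (Set.range chi)
  star_mem' := by
    change Algebra.adjoin ℂ (Set.range chi) ≤ star (Algebra.adjoin ℂ (Set.range chi))
    refine Algebra.adjoin_le ?_
    rintro _ ⟨n, rfl⟩
    refine Algebra.subset_adjoin ⟨-n, ?_⟩
    ext1 x
    simp only [chi_neg, starRingEnd_apply, ContinuousMap.star_apply]

lemma chiAlg_coe : chiAlg.toSubalgebra.toSubmodule = Submodule.span ℂ (Set.range chi) := by
  apply Algebra.adjoin_eq_span_of_subset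
  refine .trans (fun x ↦ Submonoid.closure_induction (fun _ ↦ id) ⟨0, ?_⟩ ?_)
    Submodule.subset_span
  · ext z
    simp
  · rintro _ _ _ _ ⟨m, rfl⟩ ⟨n, rfl⟩
    refine ⟨m + n, ?_⟩
    ext z
    simp [chi_add]

lemma chiAlg_sep : chiAlg.SeparatesPoints := by
  intro x y hxy
  rw [Ne, funext_iff, not_forall] at hxy
  obtain ⟨i, hi⟩ := hxy
  refine ⟨_, ⟨chi (Finsupp.single i 1), Algebra.subset_adjoin ⟨Finsupp.single i 1, rfl⟩, rfl⟩, ?_⟩
  dsimp only
  rw [chi_single, chi_single, fourier_one, fourier_one, Ne, Subtype.coe_inj]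
  contrapose hi
  exact AddCircle.injective_toCircle one_ne_zero hi

lemma ev_denseRange : DenseRange ev := by
  have h1 : chiAlg.topologicalClosure = ⊤ :=
    ContinuousMap.starSubalgebra_topologicalClosure_eq_top_of_separatesPoints _ chiAlg_sep
  have h2 : (Submodule.span ℂ (Set.range chi)).topologicalClosure = ⊤ := by
    rw [← chiAlg_coe]
    exact congr_arg (Subalgebra.toSubmodule <| StarSubalgebra.toSubalgebra ·) h1
  rw [← Finsupp.range_linearCombination] at h2
  exact Submodule.dense_iff_topologicalClosure_eq_top.2 h2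

lemma toL_denseRange : DenseRange toL :=
  (ContinuousMap.toLp_denseRange ℂ mu ℂ (p := 1) ENNReal.one_ne_top).comp ev_denseRange
    (ContinuousMap.toLp (E := ℂ) 1 mu ℂ).continuous

lemma lin_single (j : ℕ) (k : Fr) : lin (Pi.single j 1) k = k j := by
  rw [lin, Finsupp.linearCombination_single_index]
  simp

lemma nu_tent_coord {σ : ℕ} (hσ : 0 < σ) (j : ℕ) (p : Tr) :
    nu (mul (fun k => (tent σ (k j) : ℂ)) p) ≤ nu p := by
  simpa only [lin_single, sub_zero] using nu_tent hσ (Pi.single j 1) 0 p

lemma exists_dep (p : Tr) : ∃ n : ℕ, ∀ k, p k ≠ 0 → ∀ j, n ≤ j → k j = 0 := by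
  classical
  obtain ⟨B, hB⟩ := (p.support.biUnion (fun k => k.support)).bddAbove
  refine ⟨B + 1, fun k hk j hj => ?_⟩
  by_contra h
  have : j ≤ B := hB (Finset.mem_coe.2 (Finset.mem_biUnion.2
    ⟨k, Finsupp.mem_support_iff.2 hk, Finsupp.mem_support_iff.2 h⟩))
  omega

open Classical in
/-- The multi-dimensional Fejer multiplier. -/
noncomputable def fm (n σ : ℕ) (k : Fr) : ℂ :=
  (∏ j ∈ range n, (tent σ (k j) : ℂ)) * if ∀ j, n ≤ j → k j = 0 then 1 else 0

lemma nu_fm (n : ℕ) {σ : ℕ} (hσ : 0 < σ) (p : Tr) : nu (mul (fm n σ) p) ≤ nu p := by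
  classical
  obtain ⟨N, hN⟩ := exists_dep p
  have h1 : mul (fm n σ) p = mul (∏ j ∈ range n, fun k : Fr => (tent σ (k j) : ℂ))
      (mul (∏ j ∈ Finset.Ico n N, fun k : Fr => (tent 1 (k j) : ℂ)) p) := by
    rw [mul_mul]
    refine mul_congr (fun k hk => ?_)
    simp only [fm, Pi.mul_apply, Finset.prod_apply]
    congr 1
    split_ifs with h
    · refine (Finset.prod_eq_one (fun j hj => ?_)).symm
      rw [h j (Finset.mem_Ico.1 hj).1, tent_zero]
      simp
    · push Not at h
      obtain ⟨j, hj, hj'⟩ := h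
      refine (Finset.prod_eq_zero (i := j) ?_ ?_).symm
      · refine Finset.mem_Ico.2 ⟨hj, ?_⟩
        by_contra h'
        exact hj' (hN k hk j (not_lt.1 h'))
      · rw [tent_one, if_neg hj']
        simp
  rw [h1]
  exact (nu_mul_prod _ _ (fun j q => nu_tent_coord hσ j q) _).trans
    (nu_mul_prod _ _ (fun j q => nu_tent_coord one_pos j q) _)

/-- The constant vector on the first `n` coordinates. -/
noncomputable def box (n : ℕ) (M : ℤ) : Fr :=
  Finsupp.onFinset (range n) (fun j => if j < n then M else 0) (fun j hj => by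
    by_contra h
    exact hj (if_neg (by simpa using h)))

lemma box_apply (n : ℕ) (M : ℤ) (j : ℕ) : box n M j = if j < n then M else 0 := rfl

lemma fm_finite (n : ℕ) {σ : ℕ} (hσ : 0 < σ) : {k | fm n σ k ≠ 0}.Finite := by
  classical
  refine (Set.finite_Icc (-box n σ) (box n σ)).subset ?_
  intro k hk
  simp only [fm, ne_eq, mul_eq_zero, not_or, Set.mem_ofPred_eq] at hk
  obtain ⟨h1, h2⟩ := hk
  have h3 : ∀ j, n ≤ j → k j = 0 := by
    by_contra h
    exact h2 (if_neg h)
  have h4 : ∀ j, |k j| ≤ box n σ j := by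
    intro j
    rw [box_apply]
    split_ifs with h
    · have := Finset.prod_ne_zero_iff.1 h1 j (Finset.mem_range.2 h)
      exact (abs_lt_of_tent_ne_zero hσ (by simpa using this)).le
    · rw [h3 j (not_lt.1 h)]
      simp
  exact ⟨fun j => (abs_le.1 (h4 j)).1, fun j => (abs_le.1 (h4 j)).2⟩

lemma tendsto_tent (m : ℤ) : Tendsto (fun σ : ℕ => (tent σ m : ℂ)) atTop (𝓝 1) := by
  have h1 : Tendsto (fun σ : ℕ => tent σ m) atTop (𝓝 (max 0 (1 - 0))) :=
    tendsto_const_nhds.max (tendsto_const_nhds.sub (tendsto_const_div_atTop_nhds_zero_nat _))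
  have h2 := (Complex.continuous_ofReal.tendsto _).comp h1
  simpa [Function.comp_def] using h2

/-- Analytic polynomials. -/
noncomputable def An : Submodule ℂ Tr := Finsupp.supported ℂ ℂ {k : Fr | 0 ≤ k}

lemma mem_An {p : Tr} : p ∈ An ↔ ∀ k, p k ≠ 0 → 0 ≤ k := by
  rw [An, Finsupp.mem_supported]
  constructor
  · intro h k hk
    exact h (Finsupp.mem_support_iff.2 hk)
  · intro h k hk
    exact h k (Finsupp.mem_support_iff.1 hk)

theorem mem_closure_An (f : Lp ℂ 1 mu) (hf : ∀ k : Fr, ¬ 0 ≤ k → coef k f = 0) :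
    f ∈ closure (Set.range (toL.comp An.subtype)) := by
  classical
  rw [Metric.mem_closure_iff]
  intro ε hε
  obtain ⟨p, hp⟩ := toL_denseRange.exists_dist_lt f (show 0 < ε / 3 by positivity)
  obtain ⟨n, hn⟩ := exists_dep p
  have h1 : Tendsto (fun σ : ℕ => toL (mul (fm n σ) p)) atTop (𝓝 (toL p)) := by
    have e1 : toL p = toL (mul 1 p) := by
      congr 1
      ext k
      simp
    rw [e1]
    simp only [toL_mul]
    refine tendsto_finsetSum _ (fun k hk => Tendsto.smul_const (Tendsto.mul_const _ ?_) _)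
    simp only [fm, if_pos (hn k (Finsupp.mem_support_iff.1 hk)), mul_one, Pi.one_apply]
    have := tendsto_finsetProd (range n) (fun j _ => tendsto_tent (k j))
    simpa using this
  obtain ⟨σ, hσ1, hσ2⟩ := ((Metric.tendsto_nhds.1 h1 (ε / 3) (by positivity)).and
    (eventually_gt_atTop 0)).exists
  set s : Finset Fr := (fm_finite n hσ2).toFinset with hs
  set q : Lp ℂ 1 mu → Tr := fun g => ∑ k ∈ s, Finsupp.single k (fm n σ k * coef k g) with hq
  have qa : ∀ g k, q g k = fm n σ k * coef k g := by
    intro g k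
    simp only [hq, Finsupp.finsetSum_apply, Finsupp.single_apply]
    rw [Finset.sum_ite_eq']
    split_ifs with h
    · rfl
    · have : fm n σ k = 0 := by simpa [hs] using h
      rw [this, zero_mul]
  have qp : ∀ p' : Tr, q (toL p') = mul (fm n σ) p' := by
    intro p'
    ext k
    rw [qa, coef_toL, mul_apply]
  have qc : Continuous (fun g => toL (q g)) := by
    have : (fun g => toL (q g)) =
        fun g => ∑ k ∈ s, (fm n σ k * coef k g) • toL (Finsupp.single k 1) := by
      funext g
      simp only [hq, map_sum]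
      refine Finset.sum_congr rfl (fun k _ => ?_)
      rw [← map_smul, Finsupp.smul_single, smul_eq_mul, mul_one]
    rw [this]
    fun_prop
  have qle : ∀ g, ‖toL (q g)‖ ≤ ‖g‖ := by
    intro g
    refine toL_denseRange.induction_on (p := fun g => ‖toL (q g)‖ ≤ ‖g‖) g
      (isClosed_le qc.norm continuous_norm) (fun p' => ?_)
    rw [qp]
    exact nu_fm n hσ2 p'
  have qsub : q (f - toL p) = q f - q (toL p) := by
    ext k
    rw [Finsupp.sub_apply, qa, qa, qa, map_sub, mul_sub]
  have hmem : q f ∈ An := by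
    rw [mem_An]
    intro k hk
    by_contra h
    exact hk (by rw [qa, hf k h, mul_zero])
  refine ⟨toL (q f), ⟨⟨q f, hmem⟩, rfl⟩, ?_⟩
  have e1 := qle (f - toL p)
  rw [qsub, map_sub, qp, ← dist_eq_norm, ← dist_eq_norm] at e1
  have e2 := dist_triangle4 f (toL p) (toL (mul (fm n σ) p)) (toL (q f))
  rw [dist_comm (toL p), dist_comm (toL (mul (fm n σ) p)) (toL (q f))] at e2
  linarith

end Pool.Agent.P.MP_f97ab1_an
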