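import Mathlib

set_option autoImplicit false

namespace Pool.Agent.P.MP_f97ab1_an

open Finset

/-- A seminorm of a finite sum is at most the sum of the seminorms. -/
lemma semi_sum_le {V : Type} [AddCommGroup V] [Module ℂ V] (N : Seminorm ℂ V) {α : Type}
    (s : Finset α) (f : α → V) : N (∑ a ∈ s, f a) ≤ ∑ a ∈ s, N (f a) := by
  classical
  induction s using Finset.induction_on with
  | empty => simp
  | insert a s ha ih =>
    rw [Finset.sum_insert ha, Finset.sum_insert ha]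
    exact (map_add_le_add N _ _).trans (by linarith)

section DS

variable {A : Type} (C : A → Type) [∀ a, AddCommGroup (C a)] [∀ a, Module ℂ (C a)]

/-- Algebraic direct sum, as the finitely supported elements of the product. -/
def DS : Submodule ℂ (∀ a, C a) where
  carrier := {f | {a | f a ≠ 0}.Finite}
  add_mem' := by
    intro f g hf hg
    refine (hf.union hg).subset ?_
    intro a ha
    by_contra h
    simp only [Set.mem_union, Set.mem_ofPred_eq, not_or, not_not] at h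
    exact ha (by simp [h.1, h.2])
  zero_mem' := by simp
  smul_mem' := by
    intro r f hf
    refine hf.subset ?_
    intro a ha h
    exact ha (by simp [h])

variable {C}
variable {V : Type} [AddCommGroup V] [Module ℂ V]
variable {U : Type} [AddCommGroup U] [Module ℂ U]

lemma DS.exists_supp (c : DS C) : ∃ s : Finset A, ∀ a, a ∉ s → c.1 a = 0 := by
  refine ⟨(show {a | c.1 a ≠ 0}.Finite from c.2).toFinset, ?_⟩
  intro a ha
  by_contra h
  exact ha (by simpa using h)

lemma DS.ext' {c d : DS C} (h : ∀ a, c.1 a = d.1 a) : c = d := Subtype.ext (funext h)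

/-- The coordinate map. -/
def DS.proj (a : A) : DS C →ₗ[ℂ] C a := (LinearMap.proj a).comp (DS C).subtype

@[simp] lemma DS.proj_apply (a : A) (c : DS C) : DS.proj a c = c.1 a := rfl

/-- Glue a pointwise finite family of maps to a map into the direct sum. -/
def glue (q : ∀ a, V →ₗ[ℂ] C a) (h : ∀ v, {a | q a v ≠ 0}.Finite) : V →ₗ[ℂ] DS C :=
  (LinearMap.pi q).codRestrict (DS C) (fun v => h v)

@[simp] lemma glue_apply (q : ∀ a, V →ₗ[ℂ] C a) (h : ∀ v, {a | q a v ≠ 0}.Finite) (v : V) (a : A) :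
    (glue q h v).1 a = q a v := rfl

lemma DS.fin_map (T : ∀ a, C a →ₗ[ℂ] V) (c : DS C) :
    (Function.support fun a => T a (c.1 a)).Finite := by
  refine (show {a | c.1 a ≠ 0}.Finite from c.2).subset ?_
  intro a ha h
  exact ha (by simp [h])

/-- Sum of a family of maps out of the direct sum. -/
noncomputable def lsum (T : ∀ a, C a →ₗ[ℂ] V) : DS C →ₗ[ℂ] V where
  toFun c := ∑ᶠ a, T a (c.1 a)
  map_add' c d := by
    rw [← finsum_add_distrib (DS.fin_map T c) (DS.fin_map T d)]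
    simp
  map_smul' r c := by
    simp only [RingHom.id_apply]
    rw [smul_finsum' r (DS.fin_map T c)]
    simp

lemma lsum_eq_sum (T : ∀ a, C a →ₗ[ℂ] V) (c : DS C) (s : Finset A)
    (hs : ∀ a, a ∉ s → T a (c.1 a) = 0) : lsum T c = ∑ a ∈ s, T a (c.1 a) := by
  change ∑ᶠ a, T a (c.1 a) = _
  refine finsum_eq_sum_of_support_subset _ ?_
  intro a ha
  by_contra h
  exact ha (hs a (by simpa using h))

lemma map_lsum (S : V →ₗ[ℂ] U) (T : ∀ a, C a →ₗ[ℂ] V) (c : DS C) :
    S (lsum T c) = lsum (fun a => S.comp (T a)) c := by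
  obtain ⟨s, hs⟩ := DS.exists_supp c
  rw [lsum_eq_sum T c s (fun a ha => by simp [hs a ha]),
    lsum_eq_sum _ c s (fun a ha => by simp [hs a ha]), map_sum]
  simp

lemma lsum_eq_single (T : ∀ a, C a →ₗ[ℂ] V) (c : DS C) (a : A)
    (h : ∀ b, b ≠ a → T b (c.1 b) = 0) : lsum T c = T a (c.1 a) := by
  rw [lsum_eq_sum T c {a} (fun b hb => h b (by simpa using hb))]
  simp

lemma lsum_eq_zero (T : ∀ a, C a →ₗ[ℂ] V) (c : DS C)
    (h : ∀ b, T b (c.1 b) = 0) : lsum T c = 0 := by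
  rw [lsum_eq_sum T c ∅ (fun b _ => h b)]
  simp

lemma DS.fin_semi (M : ∀ a, Seminorm ℂ (C a)) (c : DS C) :
    (Function.support fun a => M a (c.1 a)).Finite := by
  refine (show {a | c.1 a ≠ 0}.Finite from c.2).subset ?_
  intro a ha h
  exact ha (by simp [h])

/-- The l1-sum seminorm. -/
noncomputable def l1 (M : ∀ a, Seminorm ℂ (C a)) : Seminorm ℂ (DS C) :=
  Seminorm.of (fun c => ∑ᶠ a, M a (c.1 a))
    (fun c d => by
      rw [← finsum_add_distrib (DS.fin_semi M c) (DS.fin_semi M d)]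
      refine finsum_le_finsum' (DS.fin_semi M (c + d)) ?_ ?_
      · exact ((DS.fin_semi M c).union (DS.fin_semi M d)).subset (Function.support_add _ _)
      · intro a
        exact map_add_le_add (M a) _ _)
    (fun r c => by
      rw [mul_finsum' _ _ (DS.fin_semi M c)]
      simp [map_smul_eq_mul])

lemma l1_eq_sum (M : ∀ a, Seminorm ℂ (C a)) (c : DS C) (s : Finset A)
    (hs : ∀ a, a ∉ s → c.1 a = 0) : l1 M c = ∑ a ∈ s, M a (c.1 a) := by
  change ∑ᶠ a, M a (c.1 a) = _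
  refine finsum_eq_sum_of_support_subset _ ?_
  intro a ha
  by_contra h
  exact ha (by simp [hs a (by simpa using h)])

lemma sum_le_l1 (M : ∀ a, Seminorm ℂ (C a)) (c : DS C) (s : Finset A) :
    ∑ a ∈ s, M a (c.1 a) ≤ l1 M c := by
  classical
  obtain ⟨t, ht⟩ := DS.exists_supp c
  rw [l1_eq_sum M c (s ∪ t) (fun a ha => ht a (fun h => ha (by simp [h])))]
  exact Finset.sum_le_sum_of_subset_of_nonneg Finset.subset_union_left
    (fun a _ _ => apply_nonneg _ _)

lemma le_l1 (M : ∀ a, Seminorm ℂ (C a)) (c : DS C) (a : A) : M a (c.1 a) ≤ l1 M c := by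
  simpa using sum_le_l1 M c {a}

lemma l1_le (M : ∀ a, Seminorm ℂ (C a)) (c : DS C) (B : ℝ)
    (h : ∀ s : Finset A, ∑ a ∈ s, M a (c.1 a) ≤ B) : l1 M c ≤ B := by
  obtain ⟨t, ht⟩ := DS.exists_supp c
  rw [l1_eq_sum M c t ht]
  exact h t

lemma l1_le_card (M : ∀ a, Seminorm ℂ (C a)) (c : DS C) (t : Finset A) (B : ℝ)
    (ht : ∀ a, a ∉ t → c.1 a = 0) (hB : ∀ a, M a (c.1 a) ≤ B) : l1 M c ≤ t.card * B := by
  rw [l1_eq_sum M c t ht]
  calc ∑ a ∈ t, M a (c.1 a) ≤ ∑ _a ∈ t, B := Finset.sum_le_sum (fun a _ => hB a)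
    _ = t.card * B := by simp

lemma l1_mono (M : ∀ a, Seminorm ℂ (C a)) (c d : DS C) (K : ℝ) (hK : 0 ≤ K)
    (h : ∀ a, M a (c.1 a) ≤ K * M a (d.1 a)) : l1 M c ≤ K * l1 M d := by
  refine l1_le M c _ (fun s => ?_)
  calc ∑ a ∈ s, M a (c.1 a) ≤ ∑ a ∈ s, K * M a (d.1 a) := Finset.sum_le_sum (fun a _ => h a)
    _ = K * ∑ a ∈ s, M a (d.1 a) := by rw [Finset.mul_sum]
    _ ≤ K * l1 M d := mul_le_mul_of_nonneg_left (sum_le_l1 M d s) hK

lemma lsum_le (N : Seminorm ℂ V) (M : ∀ a, Seminorm ℂ (C a)) (T : ∀ a, C a →ₗ[ℂ] V) (K : ℝ)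
    (h : ∀ a y, N (T a y) ≤ K * M a y) (c : DS C) : N (lsum T c) ≤ K * l1 M c := by
  obtain ⟨s, hs⟩ := DS.exists_supp c
  rw [lsum_eq_sum T c s (fun a ha => by simp [hs a ha]), l1_eq_sum M c s hs, Finset.mul_sum]
  exact (semi_sum_le N s _).trans (Finset.sum_le_sum (fun a _ => h a _))

end DS

/-- The l1-norm on finite tuples. -/
noncomputable def l1fin {E : Type} [AddCommGroup E] [Module ℂ E] (ν : Seminorm ℂ E) (T : Type)
    [Fintype T] : Seminorm ℂ (T → E) :=
  Seminorm.of (fun f => ∑ t, ν (f t))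
    (fun f g => by
      rw [← Finset.sum_add_distrib]
      exact Finset.sum_le_sum (fun t _ => map_add_le_add ν _ _))
    (fun r f => by
      rw [Finset.mul_sum]
      simp [map_smul_eq_mul])

lemma l1fin_apply {E : Type} [AddCommGroup E] [Module ℂ E] (ν : Seminorm ℂ E) (T : Type)
    [Fintype T] (f : T → E) : l1fin ν T f = ∑ t, ν (f t) := rfl

section Fam

variable {A : Type} {C : A → Type} [∀ a, AddCommGroup (C a)] [∀ a, Module ℂ (C a)]
variable {V : Type} [AddCommGroup V] [Module ℂ V]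

/-- The l1-sum of the family `(C a, M a)` is complemented in `(V, ν)`. -/
structure Fam (ν : Seminorm ℂ V) (M : ∀ a, Seminorm ℂ (C a)) (K : ℝ) where
  j : ∀ a, C a →ₗ[ℂ] V
  q : ∀ a, V →ₗ[ℂ] C a
  qj_same : ∀ a y, q a (j a y) = y
  qj_ne : ∀ a a' y, a ≠ a' → q a (j a' y) = 0
  j_le : ∀ a y, ν (j a y) ≤ K * M a y
  q_le : ∀ (s : Finset A) v, ∑ a ∈ s, M a (q a v) ≤ K * ν v
  q_fin : ∀ v, {a | q a v ≠ 0}.Finite

/-- `(Y, M)` is complemented in a finite l1-sum of copies of `(V, ν)`. -/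
structure Retr {Y : Type} [AddCommGroup Y] [Module ℂ Y] (M : Seminorm ℂ Y) (ν : Seminorm ℂ V)
    (K : ℝ) where
  T : Type
  [fin : Fintype T]
  jj : Y →ₗ[ℂ] (T → V)
  qq : (T → V) →ₗ[ℂ] Y
  qj : ∀ y, qq (jj y) = y
  j_le : ∀ y, l1fin ν T (jj y) ≤ K * M y
  q_le : ∀ f, M (qq f) ≤ K * l1fin ν T f

attribute [instance] Retr.fin

/-- From `l1(V)` complemented in `V` to a countable family of retracts. -/
theorem Fam.of_retr [Countable A] {ν : Seminorm ℂ V} {K K' : ℝ} (hK : 0 ≤ K) (hK' : 0 ≤ K')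
    (F : Fam (C := fun _ : ℕ => V) ν (fun _ => ν) K)
    (M : ∀ a, Seminorm ℂ (C a)) (R : ∀ a, Retr (M a) ν K') : Nonempty (Fam ν M (K * K')) := by
  classical
  obtain ⟨enc, henc⟩ := exists_injective_nat (Σ a, (R a).T)
  refine ⟨⟨fun a => ∑ t, (F.j (enc ⟨a, t⟩)).comp ((LinearMap.proj t).comp (R a).jj),
    fun a => (R a).qq.comp (LinearMap.pi fun t => F.q (enc ⟨a, t⟩)), ?_, ?_, ?_, ?_, ?_⟩⟩
  · intro a y
    simp only [LinearMap.comp_apply, LinearMap.sum_apply, LinearMap.proj_apply]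
    conv_rhs => rw [← (R a).qj y]
    congr 1
    funext t
    simp only [LinearMap.pi_apply, map_sum]
    rw [Finset.sum_eq_single t]
    · exact F.qj_same _ _
    · intro t' _ ht'
      refine F.qj_ne _ _ _ (fun h => ht' ?_)
      have := henc h
      simpa using this.symm
    · simp
  · intro a a' y h
    simp only [LinearMap.comp_apply, LinearMap.sum_apply, LinearMap.proj_apply]
    rw [← map_zero (R a).qq]
    congr 1
    funext t
    simp only [LinearMap.pi_apply, map_sum, Pi.zero_apply]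
    refine Finset.sum_eq_zero (fun t' _ => F.qj_ne _ _ _ (fun h' => h ?_))
    exact congrArg Sigma.fst (henc h')
  · intro a y
    simp only [LinearMap.comp_apply, LinearMap.sum_apply, LinearMap.proj_apply]
    refine (semi_sum_le ν _ _).trans ?_
    calc ∑ t, ν (F.j (enc ⟨a, t⟩) ((R a).jj y t)) ≤ ∑ t, K * ν ((R a).jj y t) :=
          Finset.sum_le_sum (fun t _ => F.j_le _ _)
      _ = K * l1fin ν _ ((R a).jj y) := by rw [l1fin_apply, Finset.mul_sum]
      _ ≤ K * (K' * M a y) := mul_le_mul_of_nonneg_left ((R a).j_le y) hK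
      _ = K * K' * M a y := by ring
  · intro s v
    simp only [LinearMap.comp_apply]
    calc ∑ a ∈ s, M a ((R a).qq (LinearMap.pi (fun t => F.q (enc ⟨a, t⟩)) v))
        ≤ ∑ a ∈ s, K' * ∑ t, ν (F.q (enc ⟨a, t⟩) v) :=
          Finset.sum_le_sum (fun a _ => (R a).q_le _)
      _ = K' * ∑ p ∈ s.sigma (fun a => (Finset.univ : Finset (R a).T)), ν (F.q (enc p) v) := by
          rw [← Finset.mul_sum, Finset.sum_sigma]
      _ = K' * ∑ m ∈ (s.sigma (fun a => (Finset.univ : Finset (R a).T))).image enc,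
            ν (F.q m v) := by
          rw [Finset.sum_image (fun x _ y _ h => henc h)]
      _ ≤ K' * (K * ν v) := mul_le_mul_of_nonneg_left (F.q_le _ v) hK'
      _ = K * K' * ν v := by ring
  · intro v
    have h1 : (enc ⁻¹' {m | F.q m v ≠ 0}).Finite := (F.q_fin v).preimage henc.injOn
    refine (h1.image Sigma.fst).subset ?_
    intro a ha
    by_contra hcon
    apply ha
    simp only [LinearMap.comp_apply]
    rw [← map_zero (R a).qq]
    congr 1
    funext t
    by_contra ht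
    exact hcon ⟨⟨a, t⟩, ht, rfl⟩

/-- Countably many copies of the l1-sum of a family. -/
theorem Fam.sum {ν : Seminorm ℂ V} {K : ℝ} {M : ∀ a, Seminorm ℂ (C a)}
    (F : Fam (C := fun p : ℕ × A => C p.2) ν (fun p => M p.2) K) :
    Nonempty (Fam (C := fun _ : ℕ => DS C) ν (fun _ => l1 M) K) := by
  classical
  have hfin : ∀ (i : ℕ) v, {a : A | F.q (i, a) v ≠ 0}.Finite := fun i v =>
    (F.q_fin v).preimage (f := fun a : A => (i, a)) (fun x _ y _ h => (Prod.mk.inj h).2)
  refine ⟨⟨fun i => lsum (fun a => F.j (i, a)), fun i => glue (fun a => F.q (i, a)) (hfin i),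
    ?_, ?_, ?_, ?_, ?_⟩⟩
  · intro i y
    refine DS.ext' (fun a => ?_)
    rw [glue_apply, map_lsum, lsum_eq_single _ _ a]
    · exact F.qj_same (i, a) _
    · intro b hb
      exact F.qj_ne (i, a) (i, b) _ (fun h => hb (Prod.mk.inj h).2.symm)
  · intro i i' y h
    refine DS.ext' (fun a => ?_)
    rw [glue_apply, map_lsum, lsum_eq_zero]
    · rfl
    · intro b
      exact F.qj_ne (i, a) (i', b) _ (fun h' => h (Prod.mk.inj h').1)
  · intro i y
    exact lsum_le ν M _ K (fun a y => F.j_le (i, a) y) y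
  · intro s v
    set t : Finset A := (F.q_fin v).toFinset.image Prod.snd with ht
    have h1 : ∀ i, l1 M (glue (fun a => F.q (i, a)) (hfin i) v) = ∑ a ∈ t, M a (F.q (i, a) v) := by
      intro i
      refine l1_eq_sum M _ t (fun a ha => ?_)
      rw [glue_apply]
      by_contra h
      exact ha (Finset.mem_image.2 ⟨(i, a), by simpa using h, rfl⟩)
    simp only [h1]
    rw [← Finset.sum_product' s t (fun i a => M a (F.q (i, a) v))]
    exact F.q_le (s ×ˢ t) v
  · intro v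
    refine ((F.q_fin v).image Prod.fst).subset ?_
    intro i hi
    by_contra hcon
    apply hi
    refine DS.ext' (fun a => ?_)
    rw [glue_apply]
    by_contra h
    exact hcon ⟨(i, a), h, rfl⟩

/-- Passing to uniformly complemented subspaces. -/
def Fam.sub {ν : Seminorm ℂ V} {K K' : ℝ} (hK : 0 ≤ K) (hK' : 0 ≤ K')
    {Y W : Type} [AddCommGroup Y] [Module ℂ Y] [AddCommGroup W] [Module ℂ W]
    {M : Seminorm ℂ Y} {M' : Seminorm ℂ W}
    (F : Fam (C := fun _ : ℕ => Y) ν (fun _ => M) K)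
    (i : W →ₗ[ℂ] Y) (r : Y →ₗ[ℂ] W) (hri : ∀ w, r (i w) = w)
    (hi : ∀ w, M (i w) ≤ K' * M' w) (hr : ∀ y, M' (r y) ≤ K' * M y) :
    Fam (C := fun _ : ℕ => W) ν (fun _ => M') (K * K') where
  j n := (F.j n).comp i
  q n := r.comp (F.q n)
  qj_same n w := by simp [F.qj_same, hri]
  qj_ne n n' w h := by simp [F.qj_ne n n' _ h]
  j_le n w := by
    simp only [LinearMap.comp_apply]
    calc ν (F.j n (i w)) ≤ K * M (i w) := F.j_le _ _
      _ ≤ K * (K' * M' w) := mul_le_mul_of_nonneg_left (hi w) hK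
      _ = K * K' * M' w := by ring
  q_le s v := by
    simp only [LinearMap.comp_apply]
    calc ∑ a ∈ s, M' (r (F.q a v)) ≤ ∑ a ∈ s, K' * M (F.q a v) :=
          Finset.sum_le_sum (fun a _ => hr _)
      _ = K' * ∑ a ∈ s, M (F.q a v) := by rw [Finset.mul_sum]
      _ ≤ K' * (K * ν v) := mul_le_mul_of_nonneg_left (F.q_le s v) hK'
      _ = K * K' * ν v := by ring
  q_fin v := by
    refine (F.q_fin v).subset ?_
    intro n hn h
    exact hn (by simp [h])

/-- Pelczynski's absorption: if `l1(W)` is complemented in `V` then `V` is isomorphic to `V × W`. -/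
theorem Fam.absorb {ν : Seminorm ℂ V} {K : ℝ} (hK : 0 ≤ K)
    {W : Type} [AddCommGroup W] [Module ℂ W] {M : Seminorm ℂ W}
    (F : Fam (C := fun _ : ℕ => W) ν (fun _ => M) K) :
    ∃ (e : V ≃ₗ[ℂ] V × W) (K' : ℝ), 0 ≤ K' ∧ (∀ v, ν (e v).1 + M (e v).2 ≤ K' * ν v) ∧
      ∀ x w, ν (e.symm (x, w)) ≤ K' * (ν x + M w) := by
  classical
  have hfin1 : ∀ v, {n : ℕ | F.q (n + 1) v ≠ 0}.Finite := fun v =>
    (F.q_fin v).preimage (f := fun n : ℕ => n + 1) (fun x _ y _ h => Nat.succ_injective h)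
  set Q : V →ₗ[ℂ] DS (fun _ : ℕ => W) := glue F.q F.q_fin with hQ
  set Q1 : V →ₗ[ℂ] DS (fun _ : ℕ => W) := glue (fun n => F.q (n + 1)) hfin1 with hQ1
  set J : DS (fun _ : ℕ => W) →ₗ[ℂ] V := lsum F.j with hJ
  set J1 : DS (fun _ : ℕ => W) →ₗ[ℂ] V := lsum (fun n => F.j (n + 1)) with hJ1
  have qJ : ∀ n c, F.q n (J c) = c.1 n := by
    intro n c
    rw [hJ, map_lsum, lsum_eq_single _ _ n]
    · exact F.qj_same _ _
    · intro b hb
      exact F.qj_ne _ _ _ hb.symm
  have qJ1 : ∀ n c, F.q (n + 1) (J1 c) = c.1 n := by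
    intro n c
    rw [hJ1, map_lsum, lsum_eq_single _ _ n]
    · exact F.qj_same _ _
    · intro b hb
      exact F.qj_ne _ _ _ (fun h => hb (Nat.succ_injective h).symm)
  have q0J1 : ∀ c, F.q 0 (J1 c) = 0 := by
    intro c
    rw [hJ1, map_lsum, lsum_eq_zero]
    intro b
    exact F.qj_ne _ _ _ (Nat.succ_ne_zero b).symm
  have hsplit : ∀ v, J (Q v) = F.j 0 (F.q 0 v) + J1 (Q1 v) := by
    intro v
    obtain ⟨s, hs⟩ := DS.exists_supp (Q v)
    obtain ⟨N, hN⟩ := s.bddAbove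
    have hs' : ∀ n, N < n → F.q n v = 0 := by
      intro n hn
      have := hs n (fun h => absurd (hN (Finset.mem_coe.2 h)) (not_le.2 hn))
      simpa [hQ] using this
    rw [hJ, hJ1, lsum_eq_sum _ _ (Finset.range (N + 1 + 1)), lsum_eq_sum _ _ (Finset.range (N + 1)),
      Finset.sum_range_succ']
    · simp [hQ, hQ1, add_comm]
    · intro a ha
      have : F.q (a + 1) v = 0 := hs' _ (by simp at ha; omega)
      simp [hQ1, this]
    · intro a ha
      have : F.q a v = 0 := hs' _ (by simp at ha; omega)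
      simp [hQ, this]
  set G : V →ₗ[ℂ] V := LinearMap.id - J.comp Q + J.comp Q1 with hG
  set G' : V →ₗ[ℂ] V := LinearMap.id - J.comp Q + J1.comp Q with hG'
  have hGa : ∀ v, G v = v - J (Q v) + J (Q1 v) := fun v => rfl
  have hG'a : ∀ v, G' v = v - J (Q v) + J1 (Q v) := fun v => rfl
  have QG : ∀ v, Q (G v) = Q1 v := by
    intro v
    refine DS.ext' (fun n => ?_)
    rw [hQ, glue_apply, hGa]
    simp [qJ, hQ, hQ1]
  set Φ : V →ₗ[ℂ] V × W := G.prod (F.q 0) with hΦ
  set Ψ : V × W →ₗ[ℂ] V := G'.coprod (F.j 0) with hΨ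
  have h1 : ∀ v, Ψ (Φ v) = v := by
    intro v
    change G' (G v) + F.j 0 (F.q 0 v) = v
    rw [hG'a, QG, hGa, hsplit]
    abel
  have h2 : ∀ p, Φ (Ψ p) = p := by
    rintro ⟨x, w⟩
    have hq0 : F.q 0 (G' x + F.j 0 w) = w := by
      rw [hG'a]
      simp [qJ, q0J1, F.qj_same, hQ]
    have hq1 : Q1 (G' x + F.j 0 w) = Q x := by
      refine DS.ext' (fun n => ?_)
      rw [hQ1, glue_apply, hG'a]
      simp [qJ, qJ1, F.qj_ne (n + 1) 0 w (Nat.succ_ne_zero n), hQ]
    refine Prod.ext ?_ hq0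
    change G (G' x + F.j 0 w) = x
    rw [hGa, hsplit, hq0, hq1, hG'a]
    abel
  have bQ : ∀ v, l1 (fun _ => M) (Q v) ≤ K * ν v := fun v =>
    l1_le _ _ _ (fun s => F.q_le s v)
  have bQ1 : ∀ v, l1 (fun _ => M) (Q1 v) ≤ K * ν v := fun v =>
    l1_le _ _ _ (fun s => by
      have := F.q_le (s.image (fun n => n + 1)) v
      rw [Finset.sum_image (fun x _ y _ h => Nat.succ_injective h)] at this
      exact this)
  have bJ : ∀ c, ν (J c) ≤ K * l1 (fun _ => M) c := lsum_le ν _ _ K F.j_le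
  have bJ1 : ∀ c, ν (J1 c) ≤ K * l1 (fun _ => M) c := lsum_le ν _ _ K (fun n => F.j_le (n + 1))
  have bq0 : ∀ v, M (F.q 0 v) ≤ K * ν v := fun v => by simpa using F.q_le {0} v
  refine ⟨LinearEquiv.ofLinearMap Φ Ψ (LinearMap.ext h2) (LinearMap.ext h1), 1 + 2 * K * K + K,
    by positivity, ?_, ?_⟩
  · intro v
    change ν (G v) + M (F.q 0 v) ≤ _
    rw [hGa]
    have e1 := map_add_le_add ν (v - J (Q v)) (J (Q1 v))
    have e2 := map_sub_le_add ν v (J (Q v))
    have e3 := (bJ (Q v)).trans (mul_le_mul_of_nonneg_left (bQ v) hK)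
    have e4 := (bJ (Q1 v)).trans (mul_le_mul_of_nonneg_left (bQ1 v) hK)
    have e5 := bq0 v
    nlinarith
  · intro x w
    change ν (G' x + F.j 0 w) ≤ _
    rw [hG'a]
    have e0 := map_add_le_add ν (x - J (Q x) + J1 (Q x)) (F.j 0 w)
    have e1 := map_add_le_add ν (x - J (Q x)) (J1 (Q x))
    have e2 := map_sub_le_add ν x (J (Q x))
    have e3 := (bJ (Q x)).trans (mul_le_mul_of_nonneg_left (bQ x) hK)
    have e4 := (bJ1 (Q x)).trans (mul_le_mul_of_nonneg_left (bQ x) hK)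
    have e5 := F.j_le 0 w
    have e6 := apply_nonneg ν x
    have e7 := apply_nonneg M w
    have e8 : 0 ≤ K * ν x := by positivity
    have e9 : 0 ≤ K * K * M w := by positivity
    nlinarith

end Fam

end Pool.Agent.P.MP_f97ab1_an
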