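import Pool.Agent.P.MP_f97ab1_an.Dense
import Pool.Agent.P.MP_f97ab1_an.L1

set_option autoImplicit false

namespace Pool.Agent.P.MP_f97ab1_an

open Finset MeasureTheory Filter Topology

/-- Shift all variables by one and put the exponent `c - lin w k` on the new first variable. -/
noncomputable def cns (w : ℕ → ℤ) (c : ℤ) (k : Fr) : Fr :=
  Finsupp.single 0 (c - lin w k) + Finsupp.mapDomain Nat.succ k

lemma cns_zero (w : ℕ → ℤ) (c : ℤ) (k : Fr) : cns w c k 0 = c - lin w k := by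
  rw [cns, Finsupp.add_apply, Finsupp.single_eq_same, Finsupp.mapDomain_of_notMem_range, add_zero]
  simp

lemma cns_succ (w : ℕ → ℤ) (c : ℤ) (k : Fr) (j : ℕ) : cns w c k (j + 1) = k j := by
  rw [cns, Finsupp.add_apply, Finsupp.single_eq_of_ne (Nat.succ_ne_zero j), zero_add]
  exact Finsupp.mapDomain_apply Nat.succ_injective k j

lemma cns_injective (w : ℕ → ℤ) (c : ℤ) : Function.Injective (cns w c) := by
  intro k k' h
  ext j
  rw [← cns_succ w c k, ← cns_succ w c k', h]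

/-- Drop the first variable. -/
noncomputable def tl (k : Fr) : Fr := Finsupp.comapDomain Nat.succ k Nat.succ_injective.injOn

lemma tl_apply (k : Fr) (j : ℕ) : tl k j = k (j + 1) := rfl

/-- Weights with a one in front. -/
def wc (w : ℕ → ℤ) : ℕ → ℤ
  | 0 => 1
  | j + 1 => w j

lemma lin_wc_cns (w : ℕ → ℤ) (c : ℤ) (k : Fr) : lin (wc w) (cns w c k) = c := by
  rw [cns, map_add, lin, Finsupp.linearCombination_single, Finsupp.linearCombination_mapDomain]
  have : wc w ∘ Nat.succ = w := rfl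
  rw [this]
  simp [wc, lin]

lemma cns_tl (w : ℕ → ℤ) (k : Fr) : cns w (k 0 + lin w (tl k)) (tl k) = k := by
  ext j
  cases j with
  | zero => rw [cns_zero]; ring
  | succ j => rw [cns_succ, tl_apply]

lemma mem_range_cns (w : ℕ → ℤ) (c : ℤ) (k : Fr) :
    k ∈ Set.range (cns w c) ↔ lin (wc w) k = c := by
  constructor
  · rintro ⟨k', rfl⟩
    exact lin_wc_cns w c k'
  · intro h
    have h1 := lin_wc_cns w (k 0 + lin w (tl k)) (tl k)
    rw [cns_tl, h] at h1
    exact ⟨tl k, by rw [h1, cns_tl]⟩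

/-- The homomorphism of the torus dual to `cns`. -/
noncomputable def shr (w : ℕ → ℤ) : Tor →+ Tor where
  toFun z := fun j => z (j + 1) - w j • z 0
  map_zero' := by funext j; simp
  map_add' z z' := by funext j; simp only [Pi.add_apply, smul_add]; abel

lemma shr_apply (w : ℕ → ℤ) (z : Tor) (j : ℕ) : shr w z j = z (j + 1) - w j • z 0 := rfl

lemma continuous_shr (w : ℕ → ℤ) : Continuous (shr w) :=
  continuous_pi (fun j => by simp only [shr_apply]; fun_prop)

lemma shr_surjective (w : ℕ → ℤ) : Function.Surjective (shr w) := by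
  intro y
  refine ⟨fun j => Nat.casesOn j 0 y, ?_⟩
  funext j
  simp [shr_apply]

lemma shr_mp (w : ℕ → ℤ) : MeasurePreserving (shr w) mu mu :=
  AddMonoidHom.measurePreserving (continuous_shr w) (shr_surjective w) rfl

lemma integral_shr (w : ℕ → ℤ) (g : Tor → ℝ) (hg : Continuous g) :
    ∫ z, g (shr w z) ∂mu = ∫ z, g z ∂mu := by
  conv_rhs => rw [← (shr_mp w).map_eq]
  rw [integral_map (continuous_shr w).measurable.aemeasurable hg.aestronglyMeasurable]

lemma chi_cns (w : ℕ → ℤ) (c : ℤ) (k : Fr) (z : Tor) :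
    chi (cns w c k) z = fourier c (z 0) * chi k (shr w z) := by
  rw [chi_apply, chi_apply, fourier_eq_ex, ← ex_add]
  congr 1
  rw [cns, pr_add_left, pr_single, pr, Finsupp.linearCombination_mapDomain, pr_eq,
    Finsupp.linearCombination_apply, Finsupp.sum, lin_eq, sub_smul, Finset.sum_smul]
  simp only [shr_apply, smul_sub, Finset.sum_sub_distrib, Function.comp_apply, smul_smul,
    Nat.succ_eq_add_one]
  abel

/-- Insertion of a new variable. -/
noncomputable def II (w : ℕ → ℤ) (c : ℤ) : Tr →ₗ[ℂ] Tr := Finsupp.lmapDomain ℂ ℂ (cns w c)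

/-- Extraction of a slice. -/
noncomputable def SS (w : ℕ → ℤ) (c : ℤ) : Tr →ₗ[ℂ] Tr :=
  Finsupp.lcomapDomain (cns w c) (cns_injective w c)

lemma SS_apply (w : ℕ → ℤ) (c : ℤ) (p : Tr) (k : Fr) : SS w c p k = p (cns w c k) := rfl

lemma II_cns (w : ℕ → ℤ) (c : ℤ) (p : Tr) (k : Fr) : II w c p (cns w c k) = p k :=
  Finsupp.mapDomain_apply (cns_injective w c) p k

lemma II_notin (w : ℕ → ℤ) (c : ℤ) (p : Tr) (k : Fr) (h : lin (wc w) k ≠ c) : II w c p k = 0 :=
  Finsupp.mapDomain_of_notMem_range p k (fun h' => h ((mem_range_cns w c k).1 h'))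

lemma SS_II (w : ℕ → ℤ) (c c' : ℤ) (p : Tr) :
    SS w c (II w c' p) = (if c = c' then (1 : ℂ) else 0) • p := by
  ext k
  rw [SS_apply]
  split_ifs with h
  · subst h
    rw [II_cns, one_smul]
  · rw [II_notin _ _ _ _ (by rwa [lin_wc_cns]), zero_smul]
    rfl

lemma II_SS (w : ℕ → ℤ) (c : ℤ) (p : Tr) :
    II w c (SS w c p) = mul (fun k => (tent 1 (lin (wc w) k - c) : ℂ)) p := by
  ext k
  rw [mul_apply, tent_one]
  by_cases h : lin (wc w) k = c
  · obtain ⟨k', rfl⟩ := (mem_range_cns w c k).2 h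
    rw [II_cns, SS_apply, if_pos (sub_eq_zero.2 h)]
    simp
  · rw [II_notin _ _ _ _ h, if_neg (fun h' => h (sub_eq_zero.1 h'))]
    simp

lemma ev_II (w : ℕ → ℤ) (c : ℤ) (p : Tr) (z : Tor) :
    ev (II w c p) z = fourier c (z 0) * ev p (shr w z) := by
  rw [II, Finsupp.lmapDomain_apply, ev_mapDomain, ev_apply, Finset.mul_sum]
  refine Finset.sum_congr rfl (fun k _ => ?_)
  rw [chi_cns]
  ring

lemma norm_fourier (c : ℤ) (x : AddCircle (1 : ℝ)) : ‖fourier c x‖ = 1 := by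
  rw [fourier_eq_ex, norm_ex]

lemma nu_II (w : ℕ → ℤ) (c : ℤ) (p : Tr) : nu (II w c p) = nu p := by
  rw [nu_eq, nu_eq, ← integral_shr w (fun z => ‖ev p z‖) (by fun_prop)]
  congr 1
  funext z
  rw [ev_II, norm_mul, norm_fourier, one_mul]

lemma nu_SS (w : ℕ → ℤ) (c : ℤ) (p : Tr) : nu (SS w c p) ≤ nu p := by
  rw [← nu_II w c, II_SS]
  exact nu_tent one_pos _ _ _

lemma II_mem (w : ℕ → ℤ) (c : ℤ) (p : Tr) (hp : ∀ k, p k ≠ 0 → 0 ≤ k ∧ lin w k ≤ c) :
    II w c p ∈ An := by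
  rw [mem_An]
  intro k hk
  have h1 : lin (wc w) k = c := by
    by_contra h
    exact hk (II_notin _ _ _ _ h)
  obtain ⟨k', rfl⟩ := (mem_range_cns w c k).2 h1
  rw [II_cns] at hk
  obtain ⟨h2, h3⟩ := hp k' hk
  intro j
  cases j with
  | zero => rw [cns_zero]; simpa using h3
  | succ j => rw [cns_succ]; exact h2 j

lemma SS_supp (w : ℕ → ℤ) (c : ℤ) (p : Tr) (hp : p ∈ An) (k : Fr) (hk : SS w c p k ≠ 0) :
    0 ≤ k ∧ lin w k ≤ c := by
  have h := mem_An.1 hp _ hk
  refine ⟨fun j => ?_, ?_⟩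
  · have := h (j + 1)
    rwa [cns_succ] at this
  · have := h 0
    rw [cns_zero] at this
    simpa using this

lemma SS_mem (w : ℕ → ℤ) (c : ℤ) (p : Tr) (hp : p ∈ An) : SS w c p ∈ An :=
  mem_An.2 (fun k hk => (SS_supp w c p hp k hk).1)

lemma lin_zero (k : Fr) : lin 0 k = 0 := by simp [lin_eq]

lemma II0_mem (c : ℤ) (hc : 0 ≤ c) (p : Tr) (hp : p ∈ An) : II 0 c p ∈ An :=
  II_mem 0 c p (fun k hk => ⟨mem_An.1 hp k hk, by rwa [lin_zero]⟩)

/-- Multiplication by a power of the first variable. -/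
noncomputable def sh (c : ℤ) : Tr →ₗ[ℂ] Tr :=
  Finsupp.lmapDomain ℂ ℂ (fun k => k + Finsupp.single 0 c)

lemma ev_sh (c : ℤ) (p : Tr) (z : Tor) : ev (sh c p) z = fourier c (z 0) * ev p z := by
  rw [sh, Finsupp.lmapDomain_apply, ev_mapDomain, ev_apply, Finset.mul_sum]
  refine Finset.sum_congr rfl (fun k _ => ?_)
  rw [chi_add, chi_single]
  ring

lemma SS_sh (c : ℤ) (p : Tr) : SS 0 0 (sh (-c) p) = SS 0 c p := by
  ext k
  rw [SS_apply, SS_apply]
  have h : cns 0 0 k = cns 0 c k + Finsupp.single 0 (-c) := by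
    ext j
    cases j with
    | zero => rw [Finsupp.add_apply, cns_zero, cns_zero, Finsupp.single_eq_same]; ring
    | succ j =>
      rw [Finsupp.add_apply, cns_succ, cns_succ, Finsupp.single_eq_of_ne (Nat.succ_ne_zero j),
        add_zero]
  rw [h]
  exact Finsupp.mapDomain_apply (f := fun k : Fr => k + Finsupp.single 0 (-c))
    (add_left_injective _) p _

/-- Slice against `(1 + ε cos)/2` modulated by `c`. -/
noncomputable def UU (ε : ℝ) (c : ℤ) : Tr →ₗ[ℂ] Tr :=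
  (1 / 2 : ℂ) • SS 0 c + (ε / 4 : ℂ) • SS 0 (c - 1) + (ε / 4 : ℂ) • SS 0 (c + 1)

lemma UU_apply (ε : ℝ) (c : ℤ) (p : Tr) : UU ε c p =
    (1 / 2 : ℂ) • SS 0 c p + (ε / 4 : ℂ) • SS 0 (c - 1) p + (ε / 4 : ℂ) • SS 0 (c + 1) p := rfl

lemma nu_UU (ε : ℝ) (hε : |ε| ≤ 1) (c : ℤ) (p : Tr) :
    nu (UU ε c p) ≤ ∫ z, (1 / 2 + ε / 2 * (fourier 1 (z 0) : ℂ).re) * ‖ev p z‖ ∂mu := by
  have h1 : UU ε c p = SS 0 0 ((1 / 2 : ℂ) • sh (-c) p + (ε / 4 : ℂ) • sh (-(c - 1)) p +
      (ε / 4 : ℂ) • sh (-(c + 1)) p) := by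
    simp only [map_add, map_smul, SS_sh, UU_apply]
  rw [h1]
  refine (nu_SS _ _ _).trans (le_of_eq ?_)
  rw [nu_eq]
  congr 1
  funext z
  have h2 : ev ((1 / 2 : ℂ) • sh (-c) p + (ε / 4 : ℂ) • sh (-(c - 1)) p +
      (ε / 4 : ℂ) • sh (-(c + 1)) p) z =
      fourier (-c) (z 0) * ((1 / 2 + ε / 2 * (fourier 1 (z 0) : ℂ).re : ℝ) : ℂ) * ev p z := by
    simp only [map_add, map_smul, ContinuousMap.add_apply, ContinuousMap.smul_apply, ev_sh,
      smul_eq_mul]
    have e1 : -(c - 1) = -c + 1 := by ring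
    have e2 : -(c + 1) = -c + -1 := by ring
    rw [e1, e2, fourier_add, fourier_add, @fourier_neg _ 1]
    push_cast
    rw [Complex.re_eq_add_conj]
    ring
  rw [h2, norm_mul, norm_mul, norm_fourier, one_mul, Complex.norm_real, Real.norm_of_nonneg]
  have h3 := Complex.abs_re_le_norm (fourier 1 (z 0) : ℂ)
  rw [norm_fourier] at h3
  have h4 : |ε * (fourier 1 (z 0) : ℂ).re| ≤ 1 := by
    rw [abs_mul]
    exact mul_le_one₀ hε (abs_nonneg _) h3
  have := (abs_le.1 h4).1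
  linarith

lemma nu_UU_add (c c' : ℤ) (p : Tr) : nu (UU 1 c p) + nu (UU (-1) c' p) ≤ nu p := by
  refine (add_le_add (nu_UU 1 (by simp) c p) (nu_UU (-1) (by simp) c' p)).trans (le_of_eq ?_)
  rw [← integral_add (cont_integrable (by fun_prop)) (cont_integrable (by fun_prop)), nu_eq]
  congr 1
  funext z
  ring

lemma UU_mem (ε : ℝ) (c : ℤ) (p : Tr) (hp : p ∈ An) : UU ε c p ∈ An := by
  rw [UU_apply]
  exact An.add_mem (An.add_mem (An.smul_mem _ (SS_mem _ _ _ hp)) (An.smul_mem _ (SS_mem _ _ _ hp)))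
    (An.smul_mem _ (SS_mem _ _ _ hp))

/-- Multiplication by a modulated Fejer kernel in a new variable. -/
noncomputable def AA (d : ℕ) : Tr →ₗ[ℂ] Tr :=
  (1 / d : ℂ) • ∑ a ∈ range d, ∑ b ∈ range d, II 0 ((a : ℤ) - b + (d + 2))

lemma AA_apply (d : ℕ) (p : Tr) :
    AA d p = (1 / d : ℂ) • ∑ a ∈ range d, ∑ b ∈ range d, II 0 ((a : ℤ) - b + (d + 2)) p := by
  simp [AA, LinearMap.sum_apply]

lemma AA_mem (d : ℕ) (p : Tr) (hp : p ∈ An) : AA d p ∈ An := by
  rw [AA_apply]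
  refine An.smul_mem _ (An.sum_mem (fun a _ => An.sum_mem (fun b hb => II0_mem _ ?_ p hp)))
  have := Finset.mem_range.1 hb
  omega

lemma SS_AA {d : ℕ} (hd : 0 < d) (c : ℤ) (p : Tr) :
    SS 0 c (AA d p) = (tent d (d + 2 - c) : ℂ) • p := by
  rw [AA_apply, map_smul, map_sum]
  simp only [map_sum, SS_II, ← Finset.sum_smul, smul_smul]
  rw [← tent_count' hd]
  congr 1
  rw [one_div, ← div_eq_inv_mul]
  congr 1
  refine Finset.sum_congr rfl (fun a _ => Finset.sum_congr rfl (fun b _ => ?_))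
  congr 1
  apply propext
  constructor <;> intro h <;> omega

lemma nu_AA {d : ℕ} (hd : 0 < d) (p : Tr) : nu (AA d p) = nu p := by
  have h1 : ∀ z, ev (AA d p) z = fourier (d + 2) (z 0) * fej d (z 0) * ev p (shr 0 z) := by
    intro z
    rw [AA_apply, fej_eq]
    simp only [map_smul, map_sum, ContinuousMap.smul_apply, ContinuousMap.coe_sum,
      Finset.sum_apply, ev_II, fourier_add, smul_eq_mul, ← Finset.sum_mul]
    ring
  have hG : ∀ (z : Tor) θ, shr 0 (z + Pi.single 0 θ) = shr 0 z := by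
    intro z θ
    funext j
    simp [shr_apply]
  have h2 : ∫ z, (fej d (z 0) : ℂ) * (‖ev p (shr 0 z)‖ : ℝ) ∂mu =
      ∫ z, ((‖ev p (shr 0 z)‖ : ℝ) : ℂ) ∂mu := by
    have hc : Continuous (fun z => ((‖ev p (shr 0 z)‖ : ℝ) : ℂ)) :=
      Complex.continuous_ofReal.comp ((ev p).continuous.comp (continuous_shr 0)).norm
    have e : ∀ m : ℤ, ∫ z : Tor, fourier m (z 0) * (‖ev p (shr 0 z)‖ : ℝ) ∂mu =
        (if m + 0 = 0 then (1 : ℂ) else 0) * ∫ z, ((‖ev p (shr 0 z)‖ : ℝ) : ℂ) ∂mu := by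
      intro m
      split_ifs with h
      · rw [add_zero] at h
        subst h
        simp
      · rw [zero_mul]
        have := integral_chi_mul_eq_zero (Finsupp.single 0 m) 0 (by simpa using h)
          (fun z => ((‖ev p (shr 0 z)‖ : ℝ) : ℂ)) (fun z θ => by simp only [hG])
        simpa only [chi_single] using this
    simp only [fej_eq, div_mul_eq_mul_div, Finset.sum_mul]
    rw [integral_div, integral_finsetSum _ (fun a _ => cont_integrable (by fun_prop))]
    rw [Finset.sum_congr rfl (fun a _ =>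
      integral_finsetSum _ (fun b _ => cont_integrable (by fun_prop)))]
    simp only [e, ← Finset.sum_mul]
    rw [← div_mul_eq_mul_div, tent_count' hd 0, tent_zero]
    simp
  rw [nu_eq, nu_eq, ← integral_shr 0 (fun z => ‖ev p z‖) (by fun_prop)]
  have h3 : ∀ z, ‖ev (AA d p) z‖ = fej d (z 0) * ‖ev p (shr 0 z)‖ := by
    intro z
    rw [h1, norm_mul, norm_mul, norm_fourier, one_mul, Complex.norm_real,
      Real.norm_of_nonneg (fej_nonneg _ _)]
  simp only [h3]
  have h4 : ∀ z : Tor, (fej d (z 0) : ℂ) * (‖ev p (shr 0 z)‖ : ℝ) =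
      ((fej d (z 0) * ‖ev p (shr 0 z)‖ : ℝ) : ℂ) := fun z => by push_cast; rfl
  simp only [h4, integral_complex_ofReal] at h2
  exact_mod_cast h2

lemma UU_AA {d : ℕ} (hd : 0 < d) (p : Tr) :
    UU 1 (d + 2) (AA d p) = ((1 - 1 / (2 * d) : ℝ) : ℂ) • p := by
  rw [UU_apply, SS_AA hd, SS_AA hd, SS_AA hd]
  have e1 : (d : ℤ) + 2 - (d + 2) = 0 := by ring
  have e2 : (d : ℤ) + 2 - (d + 2 - 1) = 1 := by ring
  have e3 : (d : ℤ) + 2 - (d + 2 + 1) = -1 := by ring
  rw [e1, e2, e3, tent_neg, tent_zero, tent_of_abs_le hd (by simp; omega)]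
  simp only [smul_smul, ← add_smul]
  congr 1
  have : (d : ℂ) ≠ 0 := by exact_mod_cast hd.ne'
  simp only [Int.cast_one, abs_one]
  push_cast
  field_simp
  ring

lemma VV_AA {d : ℕ} (hd : 0 < d) (p : Tr) : UU (-1) 1 (AA d p) = 0 := by
  rw [UU_apply, SS_AA hd, SS_AA hd, SS_AA hd, tent_eq_zero hd, tent_eq_zero hd, tent_eq_zero hd]
  · simp
  all_goals
    rw [le_abs]
    left
    omega

lemma UU_II {d : ℕ} (hd : 0 < d) (p : Tr) : UU 1 (d + 2) (II 0 1 p) = 0 := by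
  rw [UU_apply, SS_II, SS_II, SS_II, if_neg (by omega), if_neg (by omega), if_neg (by omega)]
  simp

lemma VV_II (p : Tr) : UU (-1) 1 (II 0 1 p) = (1 / 2 : ℂ) • p := by
  rw [UU_apply, SS_II, SS_II, SS_II, if_pos rfl, if_neg (by omega), if_neg (by omega)]
  simp

/-- Polynomials in the first `n` variables. -/
def Dep (n : ℕ) (p : Tr) : Prop := ∀ k, p k ≠ 0 → ∀ j, n ≤ j → k j = 0

lemma Dep_UU (ε : ℝ) (c : ℤ) (n : ℕ) (p : Tr) (hp : Dep n p) : Dep (n - 1) (UU ε c p) := by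
  intro k hk j hj
  by_contra h
  apply hk
  have : ∀ c', SS 0 c' p k = 0 := by
    intro c'
    by_contra h'
    have := hp _ h' (j + 1) (by omega)
    rw [cns_succ] at this
    exact h this
  simp [UU_apply, this]

lemma UU_of_Dep_zero (ε : ℝ) (c : ℤ) (hc : 2 ≤ c) (p : Tr) (hp : Dep 0 p) : UU ε c p = 0 := by
  have : ∀ c', c' ≠ 0 → SS 0 c' p = 0 := by
    intro c' hc'
    ext k
    by_contra h'
    have := hp _ h' 0 le_rfl
    rw [cns_zero, lin_zero, sub_zero] at this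
    exact hc' this
  rw [UU_apply, this _ (by omega), this _ (by omega), this _ (by omega)]
  simp

/-- Degrees of the Fejer kernels. -/
def dd (m : ℕ) : ℕ := 2 ^ (m + 1)

lemma dd_pos (m : ℕ) : 0 < dd m := by unfold dd; positivity

/-- Normalising constants. -/
noncomputable def cc (m : ℕ) : ℝ := 1 - 1 / (2 * dd m)

lemma cc_pos (m : ℕ) : 0 < cc m := by
  unfold cc
  have : (1 : ℝ) ≤ dd m := by exact_mod_cast dd_pos m
  rw [sub_pos, div_lt_one (by positivity)]
  linarith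

/-- Iterated slices. -/
noncomputable def Qp : ℕ → Tr →ₗ[ℂ] Tr
  | 0 => LinearMap.id
  | m + 1 => (UU 1 (dd m + 2)).comp (Qp m)

/-- Iterated insertions. -/
noncomputable def Jp : ℕ → Tr →ₗ[ℂ] Tr
  | 0 => LinearMap.id
  | m + 1 => (Jp m).comp ((((cc m)⁻¹ : ℝ) : ℂ) • AA (dd m))

lemma Qp_succ (m : ℕ) (p : Tr) : Qp (m + 1) p = UU 1 (dd m + 2) (Qp m p) := rfl

lemma Jp_succ (m : ℕ) (p : Tr) : Jp (m + 1) p = Jp m ((((cc m)⁻¹ : ℝ) : ℂ) • AA (dd m) p) := rfl

lemma Qp_Jp (m : ℕ) (p : Tr) : Qp m (Jp m p) = p := by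
  induction m generalizing p with
  | zero => rfl
  | succ m ih =>
    rw [Qp_succ, Jp_succ, ih, map_smul, UU_AA (dd_pos m), smul_smul]
    change ((((cc m)⁻¹ : ℝ) : ℂ) * (cc m : ℝ)) • p = p
    rw [← Complex.ofReal_mul, inv_mul_cancel₀ (cc_pos m).ne']
    simp

lemma Qp_Jp_gt (m m' : ℕ) (h : m < m') (p : Tr) : Qp m' (Jp m (II 0 1 p)) = 0 := by
  induction m', h using Nat.le_induction with
  | base => rw [Qp_succ, Qp_Jp, UU_II (dd_pos m)]
  | succ m' _ ih => rw [Qp_succ, ih, map_zero]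

lemma Qp_Jp_lt (m m' : ℕ) (h : m' < m) (p : Tr) : UU (-1) 1 (Qp m' (Jp m p)) = 0 := by
  induction m, h using Nat.le_induction generalizing p with
  | base => rw [Jp_succ, Qp_Jp, map_smul, VV_AA (dd_pos m'), smul_zero]
  | succ m _ ih => rw [Jp_succ, ih]

lemma nu_Jp (m : ℕ) (p : Tr) : nu (Jp m p) ≤ (2 - 1 / 2 ^ m) * nu p := by
  induction m generalizing p with
  | zero => norm_num [Jp]
  | succ m ih =>
    rw [Jp_succ]
    refine (ih _).trans ?_
    rw [map_smul_eq_mul, nu_AA (dd_pos m), Complex.norm_real,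
      Real.norm_of_nonneg (inv_pos.2 (cc_pos m)).le, ← mul_assoc]
    refine mul_le_mul_of_nonneg_right ?_ (apply_nonneg _ _)
    rw [← div_eq_mul_inv, div_le_iff₀ (cc_pos m)]
    have e : cc m = 1 - (1 / 2 ^ m) / 4 := by
      unfold cc dd
      push_cast
      field_simp
      ring
    have e' : (1 : ℝ) / 2 ^ (m + 1) = (1 / 2 ^ m) / 2 := by
      field_simp
      ring
    rw [e, e']
    have : (0 : ℝ) ≤ 1 / 2 ^ m := by positivity
    nlinarith

lemma nu_Qp (N : ℕ) (p : Tr) :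
    ∑ m ∈ range N, nu (UU (-1) 1 (Qp m p)) + nu (Qp N p) ≤ nu p := by
  induction N with
  | zero => simp [Qp]
  | succ N ih =>
    rw [Finset.sum_range_succ, Qp_succ]
    have := nu_UU_add (dd N + 2) 1 (Qp N p)
    linarith

lemma Qp_mem (m : ℕ) (p : Tr) (hp : p ∈ An) : Qp m p ∈ An := by
  induction m with
  | zero => exact hp
  | succ m ih => rw [Qp_succ]; exact UU_mem _ _ _ ih

lemma Jp_mem (m : ℕ) (p : Tr) (hp : p ∈ An) : Jp m p ∈ An := by
  induction m generalizing p with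
  | zero => exact hp
  | succ m ih => rw [Jp_succ]; exact ih _ (An.smul_mem _ (AA_mem _ _ hp))

lemma Qp_ev (p : Tr) : ∃ N, ∀ m, N ≤ m → Qp m p = 0 := by
  obtain ⟨n, hn⟩ := exists_dep p
  have h1 : ∀ m, Dep (n - m) (Qp m p) := by
    intro m
    induction m with
    | zero => exact hn
    | succ m ih => rw [Qp_succ, ← Nat.sub_sub]; exact Dep_UU _ _ _ _ ih
  refine ⟨n + 1, fun m hm => ?_⟩
  induction m, hm using Nat.le_induction with
  | base =>
    rw [Qp_succ]
    exact UU_of_Dep_zero _ _ (by omega) _ (by simpa using h1 n)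
  | succ m _ ih => rw [Qp_succ, ih, map_zero]

/-- The norm on analytic polynomials. -/
noncomputable def nuA : Seminorm ℂ An := nu.comp An.subtype

lemma nuA_apply (p : An) : nuA p = nu p.1 := rfl

/-- The l1-sum of countably many copies of the analytic polynomials is complemented in them. -/
noncomputable def famA : Fam (C := fun _ : ℕ => An) nuA (fun _ => nuA) 4 where
  j m := ((2 : ℂ) • (Jp m).comp (II 0 1)).restrict
    (fun p hp => by
      rw [LinearMap.smul_apply, LinearMap.comp_apply]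
      exact An.smul_mem _ (Jp_mem _ _ (II0_mem 1 zero_le_one p hp)))
  q m := ((UU (-1) 1).comp (Qp m)).restrict (fun p hp => by
    rw [LinearMap.comp_apply]
    exact UU_mem _ _ _ (Qp_mem m p hp))
  qj_same m p := by
    apply Subtype.ext
    change UU (-1) 1 (Qp m ((2 : ℂ) • Jp m (II 0 1 p.1))) = p.1
    rw [map_smul, map_smul, Qp_Jp, VV_II, smul_smul]
    simp
  qj_ne m m' p h := by
    apply Subtype.ext
    change UU (-1) 1 (Qp m ((2 : ℂ) • Jp m' (II 0 1 p.1))) = 0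
    rw [map_smul, map_smul]
    rcases lt_or_gt_of_ne h with h | h
    · rw [Qp_Jp_lt _ _ h, smul_zero]
    · rw [Qp_Jp_gt _ _ h, map_zero, smul_zero]
  j_le m p := by
    change nu ((2 : ℂ) • Jp m (II 0 1 p.1)) ≤ 4 * nu p.1
    rw [map_smul_eq_mul]
    have h1 := nu_Jp m (II 0 1 p.1)
    rw [nu_II] at h1
    have h2 : (0 : ℝ) ≤ 1 / 2 ^ m * nu p.1 := by positivity
    have h3 : ‖(2 : ℂ)‖ = 2 := by simp
    rw [h3]
    nlinarith
  q_le s p := by
    obtain ⟨B, hB⟩ := s.bddAbove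
    have h1 := nu_Qp (B + 1) p.1
    have h2 : ∑ m ∈ s, nu (UU (-1) 1 (Qp m p.1)) ≤
        ∑ m ∈ range (B + 1), nu (UU (-1) 1 (Qp m p.1)) :=
      Finset.sum_le_sum_of_subset_of_nonneg
        (fun m hm => Finset.mem_range.2 (Nat.lt_succ_of_le (hB (Finset.mem_coe.2 hm))))
        (fun _ _ _ => apply_nonneg _ _)
    have h3 := apply_nonneg nu (Qp (B + 1) p.1)
    have h4 := apply_nonneg nu p.1
    change ∑ m ∈ s, nu (UU (-1) 1 (Qp m p.1)) ≤ 4 * nu p.1
    linarith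
  q_fin p := by
    obtain ⟨N, hN⟩ := Qp_ev p.1
    refine (Set.finite_Iio N).subset ?_
    intro m hm
    by_contra h
    apply hm
    apply Subtype.ext
    change UU (-1) 1 (Qp m p.1) = 0
    rw [hN m (not_lt.1 h), map_zero]

end Pool.Agent.P.MP_f97ab1_an
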