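import Pool.Agent.P.MP_f97ab1_an.Zcon

set_option autoImplicit false

namespace Pool.Agent.P.MP_f97ab1_an

open Finset Filter Topology

/-- A linear order with finite initial segments that is infinite has the order type of the
natural numbers. -/
lemma exists_orderIso_nat (κ : Type) [LinearOrder κ] [Infinite κ]
    (h : ∀ a : κ, (Set.Iio a).Finite) : Nonempty (ℕ ≃o κ) := by
  classical
  set τ : κ → ℕ := fun a => (h a).toFinset.card with hτ
  have hmono : StrictMono τ := by
    intro a b hab
    refine Finset.card_lt_card ⟨?_, ?_⟩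
    · intro x hx
      simp only [Set.Finite.mem_toFinset, Set.mem_Iio] at hx ⊢
      exact hx.trans hab
    · intro hx
      have := hx (show a ∈ (h b).toFinset by simpa using hab)
      simp at this
  have hinf : Infinite (Set.range τ) := (Set.infinite_range_of_injective hmono.injective).to_subtype
  exact ⟨(Nat.Subtype.orderIsoOfNat (Set.range τ)).trans (hmono.orderIso τ).symm⟩

theorem schauder_of_goodSys {V : Type} [AddCommGroup V] [Module ℂ V]
    {X : Type} [NormedAddCommGroup X] [NormedSpace ℂ X]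
    (T : V →ₗ[ℂ] X) (hT : Function.Injective T) {ν : Seminorm ℂ V} (hν : ∀ v, ν v = ‖T v‖)
    (G : GoodSys ν) :
    ∃ e : ℕ → X, (∀ n, e n ∈ Set.range T) ∧ ∀ f ∈ closure (Set.range T), ∃! c : ℕ → ℂ,
      Tendsto (fun N : ℕ => ∑ n ∈ Finset.range N, c n • e n) atTop (𝓝 f) := by
  classical
  obtain ⟨g⟩ := exists_orderIso_nat G.κ G.fin
  set e : ℕ → V := fun n => G.e (g n) with he
  set φ : ℕ → V →ₗ[ℂ] ℂ := fun n => G.φ (g n) with hφ
  have hφe : ∀ m n, φ m (e n) = if m = n then 1 else 0 := by
    intro m n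
    split_ifs with h
    · subst h; exact G.same _
    · exact G.ne _ _ (fun h' => h (g.injective h'))
  have hsep : ∀ v w, (∀ n, φ n v = φ n w) → v = w := by
    intro v w h
    rw [← sub_eq_zero]
    refine G.sep _ (fun b => ?_)
    obtain ⟨n, rfl⟩ := g.surjective b
    rw [map_sub, sub_eq_zero]
    exact h n
  have hcoef : ∀ (d : ℕ → ℂ) N m,
      φ m (∑ n ∈ range N, d n • e n) = if m < N then d m else 0 := by
    intro d N m
    simp only [map_sum, map_smul, hφe, smul_eq_mul, mul_ite, mul_one, mul_zero]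
    rw [Finset.sum_ite_eq]
    simp
  set S : ℕ → V → V := fun N v => ∑ n ∈ range N, φ n v • e n with hS
  have hSP : ∀ N v, S N v = G.Pr (g N) v := by
    intro N v
    refine hsep _ _ (fun m => ?_)
    rw [hS, hcoef]
    change _ = G.φ (g m) _
    rw [G.P_coef]
    simp [hφ]
  have hSle : ∀ N v, ‖T (S N v)‖ ≤ G.K * ‖T v‖ := by
    intro N v
    rw [hSP, ← hν, ← hν]
    exact G.P_le _ _
  have hSsub : ∀ N v w, S N (v - w) = S N v - S N w := by
    intro N v w
    simp only [hSP, map_sub]
  have hSev : ∀ v, ∃ N₀, ∀ N, N₀ ≤ N → S N v = v := by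
    intro v
    have h1 : {n | φ n v ≠ 0}.Finite :=
      (G.supp v).preimage (f := g) (g.injective.injOn)
    obtain ⟨B, hB⟩ := h1.bddAbove
    refine ⟨B + 1, fun N hN => hsep _ _ (fun m => ?_)⟩
    rw [hS, hcoef]
    split_ifs with h
    · rfl
    · by_contra h'
      have := hB (show m ∈ {n | φ n v ≠ 0} from fun h'' => h' h''.symm)
      omega
  have he0 : ∀ n, 0 < ‖T (e n)‖ := by
    intro n
    rw [norm_pos_iff]
    intro h
    have h1 : e n = 0 := hT (by rw [h, map_zero])
    have h2 := hφe n n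
    rw [h1] at h2
    simp at h2
  have hφle : ∀ n v, ‖φ n v‖ ≤ (2 * G.K / ‖T (e n)‖) * ‖T v‖ := by
    intro n v
    have h1 : S (n + 1) v - S n v = φ n v • e n := by
      simp only [hS, Finset.sum_range_succ]
      abel
    have h2 : ‖φ n v‖ * ‖T (e n)‖ ≤ 2 * G.K * ‖T v‖ := by
      rw [← norm_smul, ← map_smul, ← h1, map_sub]
      have := norm_sub_le (T (S (n + 1) v)) (T (S n v))
      have := hSle (n + 1) v
      have := hSle n v
      linarith
    rw [div_mul_eq_mul_div, le_div_iff₀ (he0 n)]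
    exact h2
  refine ⟨fun n => T (e n), fun n => ⟨e n, rfl⟩, fun f hf => ?_⟩
  obtain ⟨x, hx, hxf⟩ := mem_closure_iff_seq_limit.1 hf
  choose p hp using hx
  have hpf : Tendsto (fun j => T (p j)) atTop (𝓝 f) := by
    simpa only [hp] using hxf
  have hc : ∀ n, ∃ c, Tendsto (fun j => φ n (p j)) atTop (𝓝 c) := by
    intro n
    refine cauchySeq_tendsto_of_complete ?_
    have h1 := hpf.cauchySeq
    rw [Metric.cauchySeq_iff] at h1 ⊢
    intro ε hε
    set B := 2 * G.K / ‖T (e n)‖ with hB
    have hB0 : 0 ≤ B := div_nonneg (by linarith [G.K_nonneg]) (norm_nonneg _)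
    obtain ⟨N, hN⟩ := h1 (ε / (B + 1)) (by positivity)
    refine ⟨N, fun i hi j hj => ?_⟩
    have h2 := hN i hi j hj
    rw [dist_eq_norm, ← map_sub] at h2 ⊢
    have h3 := hφle n (p i - p j)
    rw [lt_div_iff₀ (by positivity)] at h2
    have := norm_nonneg (T (p i - p j))
    nlinarith
  choose c hc using hc
  have hlim : ∀ N, Tendsto (fun j => T (S N (p j))) atTop
      (𝓝 (∑ n ∈ range N, c n • T (e n))) := by
    intro N
    simp only [hS, map_sum, map_smul]
    exact tendsto_finsetSum _ (fun n _ => (hc n).smul_const _)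
  have hest : ∀ N j, ‖∑ n ∈ range N, c n • T (e n) - T (S N (p j))‖ ≤ G.K * ‖f - T (p j)‖ := by
    intro N j
    refine le_of_tendsto_of_tendsto' (((hlim N).sub_const (T (S N (p j)))).norm)
      (((hpf.sub_const (T (p j))).norm).const_mul G.K) (fun i => ?_)
    rw [← map_sub, ← hSsub, ← map_sub]
    exact hSle _ _
  refine ⟨c, ?_, ?_⟩
  · rw [Metric.tendsto_atTop] at hpf ⊢
    intro ε hε
    have hK := G.K_nonneg
    obtain ⟨j, hj⟩ := hpf (ε / (G.K + 1)) (by positivity)
    have h1 := hj j le_rfl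
    obtain ⟨N₀, hN₀⟩ := hSev (p j)
    refine ⟨N₀, fun N hN => ?_⟩
    have h2 := hest N j
    rw [hN₀ N hN] at h2
    rw [dist_comm, dist_eq_norm, lt_div_iff₀ (by positivity)] at h1
    rw [dist_eq_norm]
    have h3 := norm_sub_le_norm_sub_add_norm_sub (∑ n ∈ range N, c n • T (e n)) (T (p j)) f
    rw [norm_sub_rev (T (p j)) f] at h3
    nlinarith
  · have huniq : ∀ d : ℕ → ℂ,
        Tendsto (fun N : ℕ => ∑ n ∈ range N, d n • T (e n)) atTop (𝓝 0) → ∀ m, d m = 0 := by
      intro d hd m
      have h1 : ‖d m‖ ≤ 0 := by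
        have h2 := (hd.norm).const_mul (2 * G.K / ‖T (e m)‖)
        rw [norm_zero, mul_zero] at h2
        refine ge_of_tendsto h2 ?_
        filter_upwards [eventually_gt_atTop m] with N hN
        have h3 := hφle m (∑ n ∈ range N, d n • e n)
        rw [hcoef, if_pos hN, map_sum] at h3
        simpa only [map_smul] using h3
      exact norm_le_zero_iff.1 h1
    intro c' hc'
    have hcc : Tendsto (fun N : ℕ => ∑ n ∈ range N, c n • T (e n)) atTop (𝓝 f) := by
      rw [Metric.tendsto_atTop] at hpf ⊢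
      intro ε hε
      have hK := G.K_nonneg
      obtain ⟨j, hj⟩ := hpf (ε / (G.K + 1)) (by positivity)
      have h1 := hj j le_rfl
      obtain ⟨N₀, hN₀⟩ := hSev (p j)
      refine ⟨N₀, fun N hN => ?_⟩
      have h2 := hest N j
      rw [hN₀ N hN] at h2
      rw [dist_comm, dist_eq_norm, lt_div_iff₀ (by positivity)] at h1
      rw [dist_eq_norm]
      have h3 := norm_sub_le_norm_sub_add_norm_sub (∑ n ∈ range N, c n • T (e n)) (T (p j)) f
      rw [norm_sub_rev (T (p j)) f] at h3
      nlinarith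
    have h1 := hc'.sub hcc
    rw [sub_self] at h1
    funext m
    rw [← sub_eq_zero]
    refine huniq (fun n => c' n - c n) ?_ m
    simpa only [sub_smul, Finset.sum_sub_distrib] using h1

end Pool.Agent.P.MP_f97ab1_an
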