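import Pool.Agent.P.MP_f97ab1_an.L1

set_option autoImplicit false

namespace Pool.Agent.P.MP_f97ab1_an

open Finset

/-- Indicator of the initial segment below `a`. -/
noncomputable def cut {ι : Type} [LinearOrder ι] (a : ι) : ι → ℂ := fun i => if i < a then 1 else 0

variable {E : Type} [AddCommGroup E] [Module ℂ E]

/-- The data carried through the averaging-tree induction. -/
structure Level (ν N : Seminorm ℂ E) where
  ι : Type
  [fι : Fintype ι]
  [oι : LinearOrder ι]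
  [nι : Nonempty ι]
  T : Type
  [fT : Fintype T]
  δ : E →ₗ[ℂ] (ι → ℂ)
  σ : (ι → ℂ) →ₗ[ℂ] E
  jj : (ι → ℂ) →ₗ[ℂ] (T → E)
  qq : (T → E) →ₗ[ℂ] (ι → ℂ)
  σδ : ∀ x, σ (δ x) = x
  jδ : ∀ x, jj (δ x) = 0
  σq : ∀ f, σ (qq f) = 0
  split : ∀ c, δ (σ c) + qq (jj c) = c
  jq_le : ∀ f, l1fin ν T (jj (qq f)) ≤ 50 * l1fin ν T f
  cut_le : ∀ a c, N (σ (cut a * c)) + l1fin ν T (jj (cut a * c)) ≤
    60 * N (σ c) + 800 * l1fin ν T (jj c)

attribute [instance] Level.fι Level.oι Level.nι Level.fT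

section Step

variable {ν N N' : Seminorm ℂ E} (L : Level ν N)

/-- Restriction to the `l`-th copy. -/
def res (l : Fin 60) : ((Fin 60 ×ₗ L.ι) → ℂ) →ₗ[ℂ] (L.ι → ℂ) :=
  LinearMap.funLeft ℂ ℂ (fun i => toLex (l, i))

lemma res_apply (l : Fin 60) (c : (Fin 60 ×ₗ L.ι) → ℂ) (i : L.ι) :
    res L l c i = c (toLex (l, i)) := rfl

/-- Assemble a map into the sixty copies. -/
def asm {X : Type} [AddCommGroup X] [Module ℂ X] (G : Fin 60 → X →ₗ[ℂ] (L.ι → ℂ)) :
    X →ₗ[ℂ] ((Fin 60 ×ₗ L.ι) → ℂ) :=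
  LinearMap.pi (fun p => (LinearMap.proj (ofLex p).2).comp (G (ofLex p).1))

lemma res_asm {X : Type} [AddCommGroup X] [Module ℂ X] (G : Fin 60 → X →ₗ[ℂ] (L.ι → ℂ))
    (l : Fin 60) (x : X) : res L l (asm L G x) = G l x := rfl

lemma res_ext {c d : (Fin 60 ×ₗ L.ι) → ℂ} (h : ∀ l, res L l c = res L l d) : c = d := by
  funext p
  exact congrFun (h (ofLex p).1) (ofLex p).2

lemma res_cut (l₀ : Fin 60) (i₀ : L.ι) (c : (Fin 60 ×ₗ L.ι) → ℂ) (l : Fin 60) :
    res L l (cut (toLex (l₀, i₀)) * c) =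
      if l < l₀ then res L l c else if l = l₀ then cut i₀ * res L l c else 0 := by
  funext i
  simp only [res_apply, Pi.mul_apply, cut, Prod.Lex.toLex_lt_toLex]
  by_cases h1 : l < l₀
  · simp [h1, res_apply]
  · by_cases h2 : l = l₀
    · subst h2
      simp [res_apply, cut]
    · simp [h1, h2]

include L in
theorem Level.step {I : Type} [Fintype I] (φ : E →ₗ[ℂ] (I → E)) (ψ : (I → E) →ₗ[ℂ] E)
    (hN : ∀ x, N x = l1fin ν I (φ x)) (hψφ : ∀ x, ψ (φ x) = x)
    (hψ : ∀ h, N (ψ h) ≤ 25 * l1fin ν I h)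
    (h1 : ∀ x, N' x ≤ 5 * N x) (h2 : ∀ x, N x ≤ 5 * N' x) : Nonempty (Level ν N') := by
  classical
  set σ' : ((Fin 60 ×ₗ L.ι) → ℂ) →ₗ[ℂ] E := ∑ l, L.σ.comp (res L l) with hσ'
  have σ'a : ∀ c, σ' c = ∑ l, L.σ (res L l c) := by
    intro c; simp [hσ', LinearMap.sum_apply]
  set δ' : E →ₗ[ℂ] ((Fin 60 ×ₗ L.ι) → ℂ) := asm L (fun _ => (1 / 60 : ℂ) • L.δ) with hδ'
  have δ'a : ∀ l x, res L l (δ' x) = (1 / 60 : ℂ) • L.δ x := fun l x => rfl
  set dev : Fin 60 → ((Fin 60 ×ₗ L.ι) → ℂ) →ₗ[ℂ] E :=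
    fun l => L.σ.comp (res L l) - (1 / 60 : ℂ) • σ' with hdev
  have deva : ∀ l c, dev l c = L.σ (res L l c) - (1 / 60 : ℂ) • σ' c := fun l c => rfl
  set jj' : ((Fin 60 ×ₗ L.ι) → ℂ) →ₗ[ℂ] ((Fin 60 × I) ⊕ (Fin 60 × L.T) → E) :=
    LinearMap.pi (Sum.elim
      (fun p => (1 / 2 : ℂ) • (LinearMap.proj p.2).comp (φ.comp (dev p.1)))
      (fun p => (6 : ℂ) • (LinearMap.proj p.2).comp (L.jj.comp (res L p.1)))) with hjj'
  have jl : ∀ c l i, jj' c (Sum.inl (l, i)) = (1 / 2 : ℂ) • φ (dev l c) i := fun c l i => rfl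
  have jr : ∀ c l t, jj' c (Sum.inr (l, t)) = (6 : ℂ) • L.jj (res L l c) t := fun c l t => rfl
  set y : Fin 60 → ((Fin 60 × I) ⊕ (Fin 60 × L.T) → E) →ₗ[ℂ] E :=
    fun l => (2 : ℂ) • ψ.comp (LinearMap.funLeft ℂ E (fun i => Sum.inl (l, i))) with hy
  have ya : ∀ l f, y l f = (2 : ℂ) • ψ (fun i => f (Sum.inl (l, i))) := fun l f => rfl
  set ybar : ((Fin 60 × I) ⊕ (Fin 60 × L.T) → E) →ₗ[ℂ] E := (1 / 60 : ℂ) • ∑ l, y l with hybar
  have ybara : ∀ f, ybar f = (1 / 60 : ℂ) • ∑ l, y l f := by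
    intro f; simp [hybar, LinearMap.sum_apply]
  set qq' : ((Fin 60 × I) ⊕ (Fin 60 × L.T) → E) →ₗ[ℂ] ((Fin 60 ×ₗ L.ι) → ℂ) :=
    asm L (fun l => L.δ.comp (y l - ybar) +
      (1 / 6 : ℂ) • L.qq.comp (LinearMap.funLeft ℂ E (fun t => Sum.inr (l, t)))) with hqq'
  have qa : ∀ l f, res L l (qq' f) =
      L.δ (y l f - ybar f) + (1 / 6 : ℂ) • L.qq (fun t => f (Sum.inr (l, t))) := fun l f => rfl
  have Fa : ∀ c, l1fin ν _ (jj' c) =
      (1 / 2) * ∑ l, N (dev l c) + 6 * ∑ l, l1fin ν _ (L.jj (res L l c)) := by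
    intro c
    rw [l1fin_apply, Fintype.sum_sum_type, Fintype.sum_prod_type, Fintype.sum_prod_type,
      Finset.mul_sum, Finset.mul_sum]
    congr 1
    · refine Finset.sum_congr rfl (fun l _ => ?_)
      rw [hN, l1fin_apply, Finset.mul_sum]
      refine Finset.sum_congr rfl (fun i _ => ?_)
      rw [jl, map_smul_eq_mul]
      norm_num
    · refine Finset.sum_congr rfl (fun l _ => ?_)
      rw [l1fin_apply, Finset.mul_sum]
      refine Finset.sum_congr rfl (fun i _ => ?_)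
      rw [jr, map_smul_eq_mul]
      norm_num
  have sum60 : ∀ x : E, ∑ _l : Fin 60, (1 / 60 : ℂ) • x = x := by
    intro x
    rw [Finset.sum_const, Finset.card_univ, Fintype.card_fin, ← Nat.cast_smul_eq_nsmul ℂ,
      smul_smul]
    norm_num
  have hσδ : ∀ x, σ' (δ' x) = x := by
    intro x
    rw [σ'a]
    simp only [δ'a, map_smul, L.σδ]
    exact sum60 x
  have hσq : ∀ l f, L.σ (res L l (qq' f)) = y l f - ybar f := by
    intro l f
    rw [qa, map_add, map_smul, L.σδ, L.σq]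
    simp
  have hσ'q : ∀ f, σ' (qq' f) = 0 := by
    intro f
    rw [σ'a]
    simp only [hσq, Finset.sum_sub_distrib, ybara]
    rw [sum60]
    simp
  have N60 : ∀ x : E, N ((1 / 60 : ℂ) • x) = (1 / 60) * N x := by
    intro x
    rw [map_smul_eq_mul]
    norm_num
  have devsum : ∀ c, ∑ l, N (dev l c) ≤ ∑ l, N (L.σ (res L l c)) + N (σ' c) := by
    intro c
    calc ∑ l, N (dev l c) ≤ ∑ l : Fin 60, (N (L.σ (res L l c)) + (1 / 60) * N (σ' c)) := by
          refine Finset.sum_le_sum (fun l _ => ?_)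
          rw [deva, ← N60]
          exact map_sub_le_add N _ _
      _ = ∑ l, N (L.σ (res L l c)) + N (σ' c) := by
          rw [Finset.sum_add_distrib, Finset.sum_const, Finset.card_univ, Fintype.card_fin]
          simp only [nsmul_eq_mul]
          push_cast
          ring
  refine ⟨{ ι := Fin 60 ×ₗ L.ι, T := (Fin 60 × I) ⊕ (Fin 60 × L.T), δ := δ', σ := σ', jj := jj',
            qq := qq', σδ := hσδ, jδ := ?_, σq := hσ'q, split := ?_, jq_le := ?_, cut_le := ?_ }⟩
  · intro x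
    funext p
    rcases p with ⟨l, i⟩ | ⟨l, t⟩
    · rw [jl, deva, hσδ, δ'a, map_smul, L.σδ]
      simp
    · rw [jr, δ'a, map_smul, L.jδ]
      simp
  · intro c
    refine res_ext L (fun l => ?_)
    have hyl : ∀ l, y l (jj' c) = dev l c := by
      intro l
      rw [ya]
      have : (fun i => jj' c (Sum.inl (l, i))) = (1 / 2 : ℂ) • φ (dev l c) := by
        funext i; rw [jl]; rfl
      rw [this, map_smul, hψφ, smul_smul]
      norm_num
    have hyb : ybar (jj' c) = 0 := by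
      rw [ybara]
      simp only [hyl, deva, Finset.sum_sub_distrib]
      rw [sum60, ← σ'a]
      simp
    have : (fun t => jj' c (Sum.inr (l, t))) = (6 : ℂ) • L.jj (res L l c) := by
      funext t; rw [jr]; rfl
    rw [map_add, δ'a, qa, hyl, hyb, this, map_smul, smul_smul, sub_zero, deva, map_sub, map_smul]
    have h3 := L.split (res L l c)
    have h4 : (1 / 6 * 6 : ℂ) = 1 := by norm_num
    rw [h4, one_smul, ← add_assoc, add_sub_cancel]
    exact h3
  · intro f
    rw [Fa]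
    have e1 : ∀ l, dev l (qq' f) = y l f - ybar f := by
      intro l
      rw [deva, hσq, hσ'q]
      simp
    have e2 : ∀ l, l1fin ν _ (L.jj (res L l (qq' f))) ≤
        (1 / 6) * (50 * ∑ t, ν (f (Sum.inr (l, t)))) := by
      intro l
      rw [qa, map_add, L.jδ, zero_add, map_smul, map_smul_eq_mul]
      have := L.jq_le (fun t => f (Sum.inr (l, t)))
      rw [l1fin_apply ν _ (fun t => f (Sum.inr (l, t)))] at this
      have h6 : ‖(1 / 6 : ℂ)‖ = 1 / 6 := by norm_num
      rw [h6]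
      linarith
    have e3 : ∀ l, N (y l f) ≤ 50 * ∑ i, ν (f (Sum.inl (l, i))) := by
      intro l
      rw [ya, map_smul_eq_mul]
      have := hψ (fun i => f (Sum.inl (l, i)))
      rw [l1fin_apply] at this
      have h6 : ‖(2 : ℂ)‖ = 2 := by norm_num
      rw [h6]
      linarith
    have e4 : N (ybar f) ≤ (1 / 60) * ∑ l, N (y l f) := by
      rw [ybara, N60]
      have := semi_sum_le N Finset.univ (fun l => y l f)
      linarith
    have e5 : ∑ l, N (dev l (qq' f)) ≤ 2 * ∑ l, N (y l f) := by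
      calc ∑ l, N (dev l (qq' f)) ≤ ∑ l : Fin 60, (N (y l f) + N (ybar f)) := by
            refine Finset.sum_le_sum (fun l _ => ?_)
            rw [e1]
            exact map_sub_le_add N _ _
        _ = ∑ l, N (y l f) + 60 * N (ybar f) := by
            rw [Finset.sum_add_distrib, Finset.sum_const, Finset.card_univ, Fintype.card_fin]
            simp
        _ ≤ 2 * ∑ l, N (y l f) := by linarith
    have e6 : ∑ l, N (y l f) ≤ 50 * ∑ l, ∑ i, ν (f (Sum.inl (l, i))) := by
      rw [Finset.mul_sum]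
      exact Finset.sum_le_sum (fun l _ => e3 l)
    have e7 : ∑ l, l1fin ν _ (L.jj (res L l (qq' f))) ≤
        (1 / 6) * (50 * ∑ l, ∑ t, ν (f (Sum.inr (l, t)))) := by
      rw [Finset.mul_sum, Finset.mul_sum]
      exact Finset.sum_le_sum (fun l _ => e2 l)
    rw [l1fin_apply ν _ f, Fintype.sum_sum_type, Fintype.sum_prod_type, Fintype.sum_prod_type]
    linarith
  · intro a c
    obtain ⟨⟨l₀, i₀⟩, rfl⟩ := toLex.surjective a
    set c' := cut (toLex (l₀, i₀)) * c with hc'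
    rw [Fa, Fa]
    have e1 : N (σ' c') ≤ ∑ l, N (L.σ (res L l c')) := by
      rw [σ'a]; exact semi_sum_le N _ _
    have e2 := devsum c'
    have e3 := h1 (σ' c')
    have e4 : ∀ l, N (L.σ (res L l c')) + l1fin ν _ (L.jj (res L l c')) ≤
        N (L.σ (res L l c)) + 800 * l1fin ν _ (L.jj (res L l c)) +
          (if l = l₀ then 60 * N (L.σ (res L l₀ c)) else 0) := by
      intro l
      have p1 := apply_nonneg N (L.σ (res L l c))
      have p2 := apply_nonneg (l1fin ν L.T) (L.jj (res L l c))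
      rw [hc', res_cut]
      by_cases g1 : l < l₀
      · rw [if_pos g1, if_neg g1.ne]
        linarith
      · rw [if_neg g1]
        by_cases g2 : l = l₀
        · subst g2
          rw [if_pos rfl, if_pos rfl]
          have := L.cut_le i₀ (res L l c)
          linarith
        · rw [if_neg g2, if_neg g2]
          simp only [map_zero]
          linarith
    have e5 : ∑ l, N (L.σ (res L l c')) + ∑ l, l1fin ν _ (L.jj (res L l c')) ≤
        ∑ l, N (L.σ (res L l c)) + 800 * ∑ l, l1fin ν _ (L.jj (res L l c)) +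
          60 * N (L.σ (res L l₀ c)) := by
      have := Finset.sum_le_sum (fun l (_ : l ∈ Finset.univ) => e4 l)
      rw [Finset.sum_add_distrib, Finset.sum_add_distrib, Finset.sum_add_distrib,
        ← Finset.mul_sum, Finset.sum_ite_eq'] at this
      simpa using this
    have e6 : ∀ l, N (L.σ (res L l c)) ≤ N (dev l c) + (1 / 60) * N (σ' c) := by
      intro l
      rw [← N60]
      have := map_add_le_add N (dev l c) ((1 / 60 : ℂ) • σ' c)
      rw [deva, sub_add_cancel] at this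
      rw [deva]
      exact this
    have e7 : ∑ l, N (L.σ (res L l c)) ≤ ∑ l, N (dev l c) + N (σ' c) := by
      have := Finset.sum_le_sum (fun l (_ : l ∈ Finset.univ) => e6 l)
      rw [Finset.sum_add_distrib, Finset.sum_const, Finset.card_univ, Fintype.card_fin] at this
      simp only [nsmul_eq_mul] at this
      push_cast at this
      linarith
    have e8 : N (dev l₀ c) ≤ ∑ l, N (dev l c) :=
      Finset.single_le_sum (f := fun l => N (dev l c)) (fun l _ => apply_nonneg _ _)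
        (Finset.mem_univ l₀)
    have e9 := e6 l₀
    have e10 := h2 (σ' c)
    have p1 : 0 ≤ ∑ l, N (dev l c) := Finset.sum_nonneg (fun l _ => apply_nonneg _ _)
    have p2 : 0 ≤ ∑ l, l1fin ν _ (L.jj (res L l c)) :=
      Finset.sum_nonneg (fun l _ => apply_nonneg _ _)
    linarith

end Step

end Pool.Agent.P.MP_f97ab1_an
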