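import Pool.Agent.P.MP_f97ab1_an.Embed
import Pool.Agent.P.MP_f97ab1_an.Block
import Pool.Agent.P.MP_f97ab1_an.Final

set_option autoImplicit false

namespace Pool.Agent.P.MP_f97ab1_an

open Finset MeasureTheory Filter Topology

/-- The weights of the weighted degree. -/
def w1 (j : ℕ) : ℤ := j + 1

lemma lin_nonneg (w : ℕ → ℤ) (hw : ∀ j, 0 ≤ w j) (k : Fr) (hk : 0 ≤ k) : 0 ≤ lin w k := by
  rw [lin_eq]
  exact Finset.sum_nonneg (fun j _ => mul_nonneg (hk j) (hw j))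

lemma w1_nonneg (j : ℕ) : 0 ≤ w1 j := by unfold w1; omega

lemma le_lin_w1 (k : Fr) (hk : 0 ≤ k) (j : ℕ) : k j * w1 j ≤ lin w1 k := by
  by_cases h : j ∈ k.support
  · rw [lin_eq]
    exact Finset.single_le_sum (f := fun i => k i * w1 i)
      (fun i _ => mul_nonneg (hk i) (w1_nonneg i)) h
  · rw [Finsupp.notMem_support_iff.1 h, zero_mul]
    exact lin_nonneg _ w1_nonneg k hk

/-- Nonnegative multi-indices of weighted degree at most `M`. -/
def Lam (M : ℕ) : Type := {k : Fr // 0 ≤ k ∧ lin w1 k ≤ M}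

lemma Lam_finite (M : ℕ) : {k : Fr | 0 ≤ k ∧ lin w1 k ≤ M}.Finite := by
  classical
  refine (Set.finite_Icc 0 (box M M)).subset ?_
  rintro k ⟨h0, h1⟩
  refine ⟨h0, fun j => ?_⟩
  have h2 := (le_lin_w1 k h0 j).trans h1
  have h3 : 0 ≤ k j := h0 j
  rw [box_apply]
  unfold w1 at h2
  split_ifs with h
  · nlinarith
  · by_contra h4
    have h5 : 1 ≤ k j := by omega
    have h6 : (M : ℤ) ≤ j := by exact_mod_cast not_lt.1 h
    nlinarith

noncomputable instance (M : ℕ) : Fintype (Lam M) := (Lam_finite M).fintype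

instance (M : ℕ) : Nonempty (Lam M) := ⟨⟨0, le_rfl, by simp⟩⟩

/-- Coefficient vectors on `Lam M` as polynomials. -/
noncomputable def emb (M : ℕ) : (Lam M → ℂ) →ₗ[ℂ] Tr :=
  ∑ k : Lam M, (Finsupp.lsingle k.1).comp (LinearMap.proj k)

lemma emb_val (M : ℕ) (x : Lam M → ℂ) (k : Lam M) : emb M x k.1 = x k := by
  classical
  simp only [emb, LinearMap.sum_apply, LinearMap.comp_apply, LinearMap.proj_apply,
    Finsupp.lsingle_apply, Finsupp.finsetSum_apply]
  rw [Finset.sum_eq_single k]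
  · simp
  · intro k' _ h
    exact Finsupp.single_eq_of_ne (fun h' => h (Subtype.ext h'.symm))
  · simp

lemma emb_notin (M : ℕ) (x : Lam M → ℂ) (k : Fr) (hk : ¬ (0 ≤ k ∧ lin w1 k ≤ M)) :
    emb M x k = 0 := by
  classical
  simp only [emb, LinearMap.sum_apply, LinearMap.comp_apply, LinearMap.proj_apply,
    Finsupp.lsingle_apply, Finsupp.finsetSum_apply]
  refine Finset.sum_eq_zero (fun k' _ => Finsupp.single_eq_of_ne (fun h => hk ?_))
  rw [h]
  exact k'.2

lemma emb_supp (M : ℕ) (x : Lam M → ℂ) (k : Fr) (hk : emb M x k ≠ 0) : 0 ≤ k ∧ lin w1 k ≤ M := by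
  by_contra h
  exact hk (emb_notin M x k h)

/-- Restriction of the coefficients to `Lam M`. -/
noncomputable def rs (M : ℕ) : Tr →ₗ[ℂ] (Lam M → ℂ) := LinearMap.pi (fun k => Finsupp.lapply k.1)

lemma rs_apply (M : ℕ) (p : Tr) (k : Lam M) : rs M p k = p k.1 := rfl

lemma rs_emb (M : ℕ) (x : Lam M → ℂ) : rs M (emb M x) = x := funext (fun k => emb_val M x k)

lemma emb_rs (M : ℕ) (p : Tr) (hp : ∀ k, p k ≠ 0 → 0 ≤ k ∧ lin w1 k ≤ M) :
    emb M (rs M p) = p := by
  ext k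
  by_cases h : 0 ≤ k ∧ lin w1 k ≤ M
  · exact emb_val M _ ⟨k, h⟩
  · rw [emb_notin M _ k h]
    by_contra h'
    exact h (hp k (Ne.symm h'))

lemma emb_mul (M : ℕ) (m : Fr → ℂ) (x : Lam M → ℂ) :
    emb M ((fun k => m k.1) * x) = mul m (emb M x) := by
  ext k
  rw [mul_apply]
  by_cases h : 0 ≤ k ∧ lin w1 k ≤ M
  · rw [emb_val M _ ⟨k, h⟩, emb_val M _ ⟨k, h⟩]
    rfl
  · rw [emb_notin M _ k h, emb_notin M _ k h, mul_zero]

/-- The `L^1` norm on polynomials of weighted degree at most `M`. -/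
noncomputable def nuL (M : ℕ) : Seminorm ℂ (Lam M → ℂ) := nu.comp (emb M)

lemma nuL_apply (M : ℕ) (x : Lam M → ℂ) : nuL M x = nu (emb M x) := rfl

lemma exists_sep (s : Finset Fr) :
    ∃ B : ℕ, ∀ k ∈ s, k ≠ 0 → lin (fun j => (B : ℤ) ^ j) k ≠ 0 := by
  classical
  set P : Fr → Polynomial ℤ := fun k => ∑ j ∈ k.support, Polynomial.monomial j (k j) with hP
  have hc : ∀ k j, (P k).coeff j = k j := by
    intro k j
    simp only [hP, Polynomial.finsetSum_coeff, Polynomial.coeff_monomial]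
    rw [Finset.sum_ite_eq']
    split_ifs with h
    · rfl
    · exact (Finsupp.notMem_support_iff.1 h).symm
  have he : ∀ k (B : ℤ), (P k).eval B = lin (fun j => B ^ j) k := by
    intro k B
    simp [hP, lin_eq, Polynomial.eval_finsetSum]
  have hfin : (⋃ k ∈ (s.filter (· ≠ 0) : Set Fr), {B : ℕ | (P k).IsRoot B}).Finite := by
    refine (Finset.finite_toSet _).biUnion (fun k hk => ?_)
    have hk0 : k ≠ 0 := (Finset.mem_filter.1 (Finset.mem_coe.1 hk)).2
    have hP0 : P k ≠ 0 := by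
      intro h
      apply hk0
      ext j
      rw [← hc, h]
      simp
    exact (Polynomial.finite_setOfPred_isRoot hP0).preimage (f := fun B : ℕ => (B : ℤ))
      (fun x _ y _ h => by simpa using h)
  obtain ⟨B, hB⟩ := hfin.exists_notMem
  refine ⟨B, fun k hk hk0 h => hB ?_⟩
  simp only [Set.mem_iUnion]
  refine ⟨k, Finset.mem_coe.2 (Finset.mem_filter.2 ⟨hk, hk0⟩), ?_⟩
  change (P k).eval (B : ℤ) = 0
  rw [he, h]

theorem block_Lam (M : ℕ) : Nonempty (Block (nuL M)) := by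
  classical
  obtain ⟨B, hB⟩ := exists_sep (Finset.univ.image (fun p : Lam M × Lam M => p.1.1 - p.2.1))
  refine block_exists (nuL M) (fun k => lin (fun j => (B : ℤ) ^ j) k.1) ?_ ?_ ?_
  · intro k k' h
    by_contra hne
    refine hB (k.1 - k'.1) (Finset.mem_image.2 ⟨(k, k'), Finset.mem_univ _, rfl⟩) ?_ ?_
    · exact sub_ne_zero.2 (fun h' => hne (Subtype.ext h'))
    · rw [map_sub]
      exact sub_eq_zero.2 h
  · intro k
    exact lin_nonneg _ (fun j => by positivity) _ k.2.1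
  · intro σ c x hσ
    rw [nuL_apply, nuL_apply,
      emb_mul M (fun k => (tent σ (lin (fun j => (B : ℤ) ^ j) k - c) : ℂ)) x]
    exact nu_tent hσ _ _ _

/-- Homogenisation. -/
noncomputable def hom (M : ℕ) : (Lam M → ℂ) →ₗ[ℂ] An :=
  ((II w1 M).comp (emb M)).codRestrict An (fun x => II_mem w1 M _ (emb_supp M x))

/-- Dehomogenisation. -/
noncomputable def deh (M : ℕ) : An →ₗ[ℂ] (Lam M → ℂ) :=
  (rs M).comp ((SS w1 M).comp An.subtype)

lemma deh_hom (M : ℕ) (x : Lam M → ℂ) : deh M (hom M x) = x := by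
  change rs M (SS w1 M (II w1 M (emb M x))) = x
  rw [SS_II, if_pos rfl, one_smul, rs_emb]

lemma nu_hom (M : ℕ) (x : Lam M → ℂ) : nuA (hom M x) = nuL M x := nu_II w1 M (emb M x)

lemma nu_deh (M : ℕ) (p : An) : nuL M (deh M p) ≤ nuA p := by
  change nu (emb M (rs M (SS w1 M p.1))) ≤ nu p.1
  rw [emb_rs M _ (SS_supp w1 M p.1 p.2)]
  exact nu_SS _ _ _

/-- Transfer of a retraction along homogenisation. -/
noncomputable def retrA {Y : Type} [AddCommGroup Y] [Module ℂ Y] {N : Seminorm ℂ Y} {M : ℕ}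
    (R : Retr N (nuL M) 800) : Retr N nuA 800 where
  T := R.T
  jj := ((hom M).compLeft R.T).comp R.jj
  qq := R.qq.comp ((deh M).compLeft R.T)
  qj y := by
    conv_rhs => rw [← R.qj y]
    simp only [LinearMap.comp_apply]
    congr 1
    funext t
    exact deh_hom M _
  j_le y := by
    refine le_trans (le_of_eq ?_) (R.j_le y)
    rw [l1fin_apply, l1fin_apply]
    exact Finset.sum_congr rfl (fun t _ => nu_hom M _)
  q_le f := by
    refine (R.q_le _).trans (mul_le_mul_of_nonneg_left ?_ (by norm_num))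
    rw [l1fin_apply, l1fin_apply]
    exact Finset.sum_le_sum (fun t _ => nu_deh M _)

/-- De la Vallee Poussin type cut-offs. -/
noncomputable def rr : ℕ → ℤ → ℝ
  | 0, _ => 0
  | 1, _ => 0
  | n + 2, m => tent (2 ^ n) m + tent (2 ^ n) (m - (2 ^ n : ℕ))

lemma rr_eq_one (n : ℕ) (m : ℤ) (h0 : 0 ≤ m) (h1 : m ≤ (2 ^ n : ℕ)) : rr (n + 2) m = 1 :=
  tent_add (by positivity) h0 h1

lemma rr_ne_zero (n : ℕ) (m : ℤ) (h : rr n m ≠ 0) : 2 ≤ n ∧ m < (2 ^ (n - 1) : ℕ) := by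
  match n with
  | 0 => exact absurd rfl h
  | 1 => exact absurd rfl h
  | n + 2 =>
    refine ⟨by omega, ?_⟩
    by_contra h'
    apply h
    have e : ((2 ^ (n + 2 - 1) : ℕ) : ℤ) = 2 * (2 ^ n : ℕ) := by
      have : n + 2 - 1 = n + 1 := by omega
      rw [this]
      push_cast
      ring
    rw [e] at h'
    have hp : 0 < 2 ^ n := by positivity
    change tent (2 ^ n) m + tent (2 ^ n) (m - (2 ^ n : ℕ)) = 0
    rw [tent_eq_zero hp, tent_eq_zero hp, add_zero]
    all_goals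
      rw [le_abs]
      left
      omega

lemma rr_mul (n n' : ℕ) (h : n < n') (m : ℤ) (h0 : 0 ≤ m) : rr n m * rr n' m = rr n m := by
  by_cases hr : rr n m = 0
  · rw [hr, zero_mul]
  · obtain ⟨h1, h2⟩ := rr_ne_zero n m hr
    obtain ⟨n'', rfl⟩ : ∃ n'', n' = n'' + 2 := ⟨n' - 2, by omega⟩
    rw [rr_eq_one n'' m h0, mul_one]
    have : 2 ^ (n - 1) ≤ 2 ^ n'' := Nat.pow_le_pow_right (by norm_num) (by omega)
    omega

lemma mul_mem (m : Fr → ℂ) (p : Tr) (hp : p ∈ An) : mul m p ∈ An := by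
  rw [mem_An] at hp ⊢
  intro k hk
  exact hp k (fun h => hk (by simp [h]))

/-- The commuting approximating sequence. -/
noncomputable def rho (n : ℕ) : An →ₗ[ℂ] An :=
  (mul (fun k => (rr n (lin w1 k) : ℂ))).restrict (fun p hp => mul_mem _ p hp)

lemma rho_val (n : ℕ) (p : An) : (rho n p).1 = mul (fun k => (rr n (lin w1 k) : ℂ)) p.1 := rfl

lemma lin_nonneg_of_An (p : An) (k : Fr) (hk : p.1 k ≠ 0) : 0 ≤ lin w1 k :=
  lin_nonneg _ w1_nonneg k (mem_An.1 p.2 k hk)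

lemma nu_rho (n : ℕ) (p : An) : nuA (rho n p) ≤ 2 * nuA p := by
  rw [nuA_apply, nuA_apply, rho_val]
  have h0 := apply_nonneg nu p.1
  match n with
  | 0 =>
    have : mul (fun k => (rr 0 (lin w1 k) : ℂ)) p.1 = 0 := by ext k; simp [rr]
    rw [this, map_zero]
    linarith
  | 1 =>
    have : mul (fun k => (rr 1 (lin w1 k) : ℂ)) p.1 = 0 := by ext k; simp [rr]
    rw [this, map_zero]
    linarith
  | n + 2 =>
    have : mul (fun k => (rr (n + 2) (lin w1 k) : ℂ)) p.1 =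
        mul (fun k => (tent (2 ^ n) (lin w1 k - 0) : ℂ)) p.1 +
        mul (fun k => (tent (2 ^ n) (lin w1 k - (2 ^ n : ℕ)) : ℂ)) p.1 := by
      ext k
      simp [rr, add_mul]
    rw [this]
    have hp : 0 < 2 ^ n := by positivity
    have h1 := nu_tent hp w1 0 p.1
    have h2 := nu_tent hp w1 (2 ^ n : ℕ) p.1
    refine (map_add_le_add nu _ _).trans ?_
    linarith

theorem goodSys_An : Nonempty (GoodSys nuA) := by
  classical
  have B : ∀ n : ℕ, Block (nuL (2 ^ (n + 1))) := fun n => (block_Lam _).some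
  obtain ⟨F⟩ := Fam.of_retr (A := ℕ × ℕ) (C := fun p => (B p.2).ι → ℂ) (K := 4) (K' := 800)
    (by norm_num) (by norm_num) famA (fun p => (B p.2).M) (fun p => retrA (B p.2).R)
  have hsupp : ∀ n (x : An) k, (rho (n + 2) x - rho (n + 1) x).1 k ≠ 0 →
      0 ≤ k ∧ lin w1 k ≤ (2 ^ (n + 1) : ℕ) := by
    intro n x k hk
    refine ⟨mem_An.1 (rho (n + 2) x - rho (n + 1) x).2 k hk, ?_⟩
    by_contra h
    apply hk
    have e1 : rr (n + 2) (lin w1 k) = 0 := by
      by_contra h'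
      have := (rr_ne_zero _ _ h').2
      have e : n + 2 - 1 = n + 1 := by omega
      rw [e] at this
      omega
    have e2 : rr (n + 1) (lin w1 k) = 0 := by
      by_contra h'
      have := (rr_ne_zero _ _ h').2
      have e : 2 ^ (n + 1 - 1) ≤ 2 ^ (n + 1) := Nat.pow_le_pow_right (by norm_num) (by omega)
      omega
    rw [Submodule.coe_sub, Finsupp.sub_apply, rho_val, rho_val, mul_apply, mul_apply, e1, e2]
    simp
  refine goodSys_of_blocks rho ?_ ?_ ?_ nu_rho ?_ (fun n => (B n).M)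
    (fun n => (B n).δ.comp ((rs _).comp An.subtype))
    (fun n => ((emb _).codRestrict An
      (fun x => mem_An.2 (fun k hk => (emb_supp _ x k hk).1))).comp (B n).σ)
    800 (by norm_num) ?_ ?_ ?_ (fun n => (B n).cut_le) (4 * 800) (by norm_num) F
  · ext p k
    rw [rho_val]
    simp [rr]
  · intro n m x h
    apply Subtype.ext
    rw [rho_val, rho_val, rho_val, mul_mul]
    refine mul_congr (fun k hk => ?_)
    rw [Pi.mul_apply, ← Complex.ofReal_mul, rr_mul n m h _ (lin_nonneg_of_An x k hk)]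
  · intro n m x h
    apply Subtype.ext
    rw [rho_val, rho_val, mul_mul]
    refine mul_congr (fun k hk => ?_)
    rw [Pi.mul_apply, ← Complex.ofReal_mul, mul_comm, rr_mul n m h _ (lin_nonneg_of_An x k hk)]
  · intro x
    obtain ⟨N, hN⟩ := (x.1.support.image (fun k => (lin w1 k).toNat)).bddAbove
    refine ⟨N + 2, fun n hn => ?_⟩
    obtain ⟨n, rfl⟩ : ∃ n', n = n' + 2 := ⟨n - 2, by omega⟩
    apply Subtype.ext
    rw [rho_val]
    ext k
    rw [mul_apply]
    by_cases hk : x.1 k = 0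
    · rw [hk, mul_zero]
    · have h1 : (lin w1 k).toNat ≤ N :=
        hN (Finset.mem_coe.2 (Finset.mem_image.2 ⟨k, Finsupp.mem_support_iff.2 hk, rfl⟩))
      have h2 : n < 2 ^ n := Nat.lt_two_pow_self
      rw [rr_eq_one n _ (lin_nonneg_of_An x k hk) (by omega)]
      simp
  · intro n x
    apply Subtype.ext
    change emb _ ((B n).σ ((B n).δ (rs _ (rho (n + 2) x - rho (n + 1) x).1))) = _
    rw [(B n).σδ, emb_rs _ _ (hsupp n x)]
  · intro n x
    change (B n).M ((B n).δ (rs _ (rho (n + 2) x - rho (n + 1) x).1)) ≤ _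
    refine ((B n).δ_le _).trans (le_of_eq ?_)
    rw [nuL_apply, emb_rs _ _ (hsupp n x), nuA_apply]
  · intro n c
    exact (B n).σ_le c

theorem schauder_Lp {V : Type} [AddCommGroup V] [Module ℂ V] (ν : Seminorm ℂ V) (G : GoodSys ν)
    (T : V →ₗ[ℂ] Lp ℂ 1 mu) (ν' : V → ℝ) (h1 : ∀ v, ν v = ν' v) (T' : V → Lp ℂ 1 mu)
    (h2 : ∀ v, T v = T' v) (hinj : Function.Injective T') (hν : ∀ v, ν' v = ‖T' v‖) :
    ∃ e : ℕ → Lp ℂ 1 mu, (∀ n, e n ∈ Set.range T') ∧ ∀ f ∈ closure (Set.range T'), ∃! c : ℕ → ℂ,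
      Tendsto (fun N : ℕ => ∑ n ∈ Finset.range N, c n • e n) atTop (𝓝 f) := by
  have h3 : (T : V → Lp ℂ 1 mu) = T' := funext h2
  have h := schauder_of_goodSys (X := Lp ℂ 1 mu) (V := V) T (by rwa [h3]) (ν := ν)
    (fun v => by rw [h1, h2, hν]) G
  rwa [h3] at h

theorem H1_basis : ∃ e : ℕ → Lp ℂ 1 mu, (∀ n, ∀ k : Fr, ¬ 0 ≤ k → coef k (e n) = 0) ∧
    ∀ f : Lp ℂ 1 mu, (∀ k : Fr, ¬ 0 ≤ k → coef k f = 0) → ∃! c : ℕ → ℂ,
      Tendsto (fun N : ℕ => ∑ n ∈ Finset.range N, c n • e n) atTop (𝓝 f) := by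
  obtain ⟨G⟩ := goodSys_An
  obtain ⟨e, he1, he2⟩ := schauder_Lp nuA G (toL.comp An.subtype) (fun v => nu v.1) nuA_apply
    (fun v => toL v.1) (fun v => LinearMap.comp_apply _ _ _)
    (fun p q h => Subtype.ext (toL_injective h)) (fun v => nu_apply _)
  refine ⟨e, fun n k hk => ?_, fun f hf => he2 f (mem_closure_An f hf)⟩
  obtain ⟨p, hp⟩ := he1 n
  rw [← hp, coef_toL]
  by_contra h
  exact hk (mem_An.1 p.2 k h)

end Pool.Agent.P.MP_f97ab1_an
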