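import Pool.Agent.P.MP_f97ab1_an.Tent

set_option autoImplicit false

namespace Pool.Agent.P.MP_f97ab1_an

open Finset MeasureTheory Filter Topology

/-- The infinite torus. -/
abbrev Tor : Type := ℕ → AddCircle (1 : ℝ)

/-- Its dual group. -/
abbrev Fr : Type := ℕ →₀ ℤ

/-- Trigonometric polynomials, as finitely supported coefficient families. -/
abbrev Tr : Type := Fr →₀ ℂ

/-- Haar measure on the circle. -/
noncomputable abbrev hc : Measure (AddCircle (1 : ℝ)) := AddCircle.haarAddCircle

/-- Haar measure on the infinite torus. -/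
noncomputable def mu : Measure Tor := Measure.infinitePi (fun _ : ℕ => hc)

instance mu_prob : IsProbabilityMeasure mu := by unfold mu; infer_instance

instance mu_left : mu.IsAddLeftInvariant := ⟨fun g => by
  have h := Measure.infinitePi_map_pi (fun _ : ℕ => hc) (f := fun i x => g i + x)
    (fun i => measurable_const_add _)
  simp only [map_add_left_eq_self] at h
  exact h⟩

instance mu_haar : mu.IsAddHaarMeasure :=
  Measure.isAddHaarMeasure_of_isCompact_nonempty_interior mu Set.univ isCompact_univ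
    (by simp) (by simp) (by simp)

/-- The exponential on the circle. -/
noncomputable def ex (x : AddCircle (1 : ℝ)) : ℂ := AddCircle.toCircle x

lemma ex_add (x y : AddCircle (1 : ℝ)) : ex (x + y) = ex x * ex y := by
  simp [ex, AddCircle.toCircle_add]

@[simp] lemma ex_zero : ex 0 = 1 := by simp [ex]

@[simp] lemma norm_ex (x : AddCircle (1 : ℝ)) : ‖ex x‖ = 1 := by simp [ex]

lemma continuous_ex : Continuous ex :=
  continuous_subtype_val.comp AddCircle.continuous_toCircle

lemma fourier_eq_ex (m : ℤ) (x : AddCircle (1 : ℝ)) : fourier m x = ex (m • x) := fourier_apply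

lemma ex_neg (x : AddCircle (1 : ℝ)) : ex (-x) = (starRingEnd ℂ) (ex x) := by
  have h := @fourier_neg (1 : ℝ) 1 x
  rw [fourier_eq_ex, fourier_eq_ex] at h
  simpa using h

lemma ex_sum {α : Type} (s : Finset α) (f : α → AddCircle (1 : ℝ)) :
    ex (∑ a ∈ s, f a) = ∏ a ∈ s, ex (f a) := by
  classical
  induction s using Finset.induction_on with
  | empty => simp
  | insert a s ha ih => rw [Finset.sum_insert ha, Finset.prod_insert ha, ex_add, ih]

/-- The duality pairing. -/
noncomputable def pr (k : Fr) (z : Tor) : AddCircle (1 : ℝ) := Finsupp.linearCombination ℤ z k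

lemma pr_eq (k : Fr) (z : Tor) : pr k z = ∑ i ∈ k.support, k i • z i := rfl

lemma pr_add_left (k k' : Fr) (z : Tor) : pr (k + k') z = pr k z + pr k' z := map_add _ _ _

lemma pr_neg_left (k : Fr) (z : Tor) : pr (-k) z = -pr k z := map_neg _ _

lemma pr_zero_left (z : Tor) : pr 0 z = 0 := map_zero _

lemma pr_single (i : ℕ) (a : ℤ) (z : Tor) : pr (Finsupp.single i a) z = a • z i :=
  Finsupp.linearCombination_single _ _ _

lemma pr_add_right (k : Fr) (z w : Tor) : pr k (z + w) = pr k z + pr k w := by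
  simp [pr_eq, Finset.sum_add_distrib]

lemma continuous_pr (k : Fr) : Continuous (pr k) := by
  have : pr k = fun z => ∑ i ∈ k.support, k i • z i := funext (pr_eq k)
  rw [this]
  fun_prop

/-- Characters of the infinite torus. -/
noncomputable def chi (k : Fr) : C(Tor, ℂ) :=
  ⟨fun z => ex (pr k z), continuous_ex.comp (continuous_pr k)⟩

lemma chi_apply (k : Fr) (z : Tor) : chi k z = ex (pr k z) := rfl

lemma chi_add (k k' : Fr) (z : Tor) : chi (k + k') z = chi k z * chi k' z := by
  rw [chi_apply, pr_add_left, ex_add]; rfl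

lemma chi_add_right (k : Fr) (z w : Tor) : chi k (z + w) = chi k z * chi k w := by
  rw [chi_apply, pr_add_right, ex_add]; rfl

@[simp] lemma chi_zero (z : Tor) : chi 0 z = 1 := by rw [chi_apply, pr_zero_left, ex_zero]

@[simp] lemma norm_chi (k : Fr) (z : Tor) : ‖chi k z‖ = 1 := norm_ex _

lemma chi_neg (k : Fr) (z : Tor) : chi (-k) z = (starRingEnd ℂ) (chi k z) := by
  rw [chi_apply, pr_neg_left, ex_neg]; rfl

lemma chi_single (i : ℕ) (a : ℤ) (z : Tor) : chi (Finsupp.single i a) z = fourier a (z i) := by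
  rw [chi_apply, pr_single, fourier_eq_ex]

lemma chi_neg_eq_prod (k : Fr) (z : Tor) :
    (∏ i ∈ k.support, (fourier (-(k i)) (z i) : ℂ)) = chi (-k) z := by
  rw [chi_apply, pr_eq, ex_sum, Finsupp.support_neg]
  exact Finset.prod_congr rfl (fun i _ => fourier_eq_ex _ _)

/-- The linear functional with weights `w`. -/
noncomputable def lin (w : ℕ → ℤ) : Fr →ₗ[ℤ] ℤ := Finsupp.linearCombination ℤ w

lemma lin_eq (w : ℕ → ℤ) (k : Fr) : lin w k = ∑ i ∈ k.support, k i * w i := rfl

/-- The one-parameter subgroup in direction `w`. -/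
noncomputable def dir (w : ℕ → ℤ) (θ : AddCircle (1 : ℝ)) : Tor := fun j => w j • θ

lemma chi_dir (w : ℕ → ℤ) (θ : AddCircle (1 : ℝ)) (k : Fr) :
    chi k (dir w θ) = fourier (lin w k) θ := by
  rw [chi_apply, fourier_eq_ex, pr_eq, lin_eq, Finset.sum_smul]
  congr 1
  exact Finset.sum_congr rfl (fun i _ => by simp [dir, smul_smul])

lemma integral_chi_mul_eq_zero (k : Fr) (i : ℕ) (hk : k i ≠ 0) (G : Tor → ℂ)
    (hG : ∀ z θ, G (z + Pi.single i θ) = G z) : ∫ z, chi k z * G z ∂mu = 0 := by
  refine integral_eq_zero_of_add_right_eq_neg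
    (g := Pi.single i ((((1 : ℝ) / 2 / (k i) : ℝ) : AddCircle (1 : ℝ)))) (fun z => ?_)
  rw [hG, chi_add_right]
  have h1 : chi k (Pi.single i ((((1 : ℝ) / 2 / (k i) : ℝ) : AddCircle (1 : ℝ)))) = -1 := by
    have h2 := fourier_add_half_inv_index hk one_pos (0 : AddCircle (1 : ℝ))
    rw [zero_add, fourier_eval_zero] at h2
    rw [← h2, chi_apply, fourier_eq_ex, pr, Finsupp.linearCombination_single_index]
  rw [h1]
  ring

lemma integral_chi (k : Fr) : ∫ z, chi k z ∂mu = if k = 0 then 1 else 0 := by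
  split_ifs with h
  · subst h; simp
  · obtain ⟨i, hi⟩ := Finsupp.ne_iff.1 h
    simpa using integral_chi_mul_eq_zero k i hi (fun _ => 1) (fun _ _ => rfl)

lemma integral_fourier (m : ℤ) : ∫ θ, fourier m θ ∂hc = if m = 0 then 1 else 0 := by
  split_ifs with h
  · subst h; simp
  · exact integral_eq_zero_of_add_right_eq_neg (fourier_add_half_inv_index h one_pos)

lemma cont_integrable {E : Type} [NormedAddCommGroup E] {f : Tor → E} (hf : Continuous f) :
    Integrable f mu :=
  hf.integrable_of_hasCompactSupport (HasCompactSupport.of_compactSpace f)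

lemma cont_integrable' {E : Type} [NormedAddCommGroup E] {f : AddCircle (1 : ℝ) → E}
    (hf : Continuous f) : Integrable f hc :=
  hf.integrable_of_hasCompactSupport (HasCompactSupport.of_compactSpace f)

/-- A trigonometric polynomial as a continuous function. -/
noncomputable def ev : Tr →ₗ[ℂ] C(Tor, ℂ) := Finsupp.linearCombination ℂ chi

lemma ev_apply (p : Tr) (z : Tor) : ev p z = ∑ k ∈ p.support, p k * chi k z := by
  simp [ev, Finsupp.linearCombination_apply, Finsupp.sum]

lemma ev_apply_of_subset (p : Tr) (z : Tor) (s : Finset Fr) (hs : p.support ⊆ s) :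
    ev p z = ∑ k ∈ s, p k * chi k z := by
  rw [ev_apply]
  refine Finset.sum_subset hs (fun k _ hk => ?_)
  rw [Finsupp.notMem_support_iff.1 hk, zero_mul]

lemma ev_mapDomain (f : Fr → Fr) (p : Tr) (z : Tor) :
    ev (Finsupp.mapDomain f p) z = ∑ k ∈ p.support, p k * chi (f k) z := by
  rw [ev, Finsupp.linearCombination_mapDomain]
  simp [Finsupp.linearCombination_apply, Finsupp.sum]

/-- A trigonometric polynomial as an element of `L^1`. -/
noncomputable def toL : Tr →ₗ[ℂ] Lp ℂ 1 mu :=
  (ContinuousMap.toLp (E := ℂ) 1 mu ℂ).toLinearMap.comp ev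

lemma toL_ae (p : Tr) : toL p =ᵐ[mu] ev p := ContinuousMap.coeFn_toLp mu (ev p)

/-- The `L^1` norm of a trigonometric polynomial. -/
noncomputable def nu : Seminorm ℂ Tr := (normSeminorm ℂ (Lp ℂ 1 mu)).comp toL

lemma nu_apply (p : Tr) : nu p = ‖toL p‖ := rfl

lemma nu_eq (p : Tr) : nu p = ∫ z, ‖ev p z‖ ∂mu := by
  rw [nu_apply, L1.norm_eq_integral_norm]
  exact integral_congr_ae ((toL_ae p).fun_comp norm)

/-- Fourier multipliers on trigonometric polynomials. -/
noncomputable def mul (m : Fr → ℂ) : Tr →ₗ[ℂ] Tr where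
  toFun p := Finsupp.onFinset p.support (fun k => m k * p k)
    (fun k hk => Finsupp.mem_support_iff.2 (fun h => hk (by simp [h])))
  map_add' p q := by ext k; simp [mul_add]
  map_smul' c p := by ext k; simp; ring

@[simp] lemma mul_apply (m : Fr → ℂ) (p : Tr) (k : Fr) : mul m p k = m k * p k := rfl

lemma support_mul (m : Fr → ℂ) (p : Tr) : (mul m p).support ⊆ p.support := by
  intro k hk
  rw [Finsupp.mem_support_iff] at hk ⊢
  intro h
  exact hk (by simp [h])

lemma mul_congr {m m' : Fr → ℂ} {p : Tr} (h : ∀ k, p k ≠ 0 → m k = m' k) : mul m p = mul m' p := by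
  ext k
  by_cases hk : p k = 0
  · simp [hk]
  · simp [h k hk]

lemma mul_mul (m m' : Fr → ℂ) (p : Tr) : mul m (mul m' p) = mul (m * m') p := by
  ext k; simp [mul_assoc]

lemma toL_mul (m : Fr → ℂ) (p : Tr) :
    toL (mul m p) = ∑ k ∈ p.support, (m k * p k) • toL (Finsupp.single k 1) := by
  have : mul m p = ∑ k ∈ p.support, (m k * p k) • Finsupp.single k (1 : ℂ) := by
    classical
    ext k
    simp only [mul_apply, Finsupp.finsetSum_apply, Finsupp.smul_apply, Finsupp.single_apply,
      smul_eq_mul, mul_ite, mul_one, mul_zero]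
    rw [Finset.sum_ite_eq']
    split_ifs with h
    · rfl
    · rw [Finsupp.notMem_support_iff.1 h, mul_zero]
  rw [this, map_sum]
  simp only [map_smul]

lemma nu_translate (θ : Tor) (p : Tr) : nu (mul (fun k => chi k θ) p) = nu p := by
  rw [nu_eq, nu_eq, ← integral_add_right_eq_self (fun z => ‖ev p z‖) θ]
  congr 1
  funext z
  rw [ev_apply_of_subset _ _ _ (support_mul _ p), ev_apply]
  congr 1
  refine Finset.sum_congr rfl (fun k _ => ?_)
  rw [mul_apply, chi_add_right]
  ring

lemma nu_mul_kernel (w : ℕ → ℤ) (K : AddCircle (1 : ℝ) → ℂ) (hK : Continuous K) (p : Tr) :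
    nu (mul (fun k => ∫ θ, K θ * fourier (lin w k) θ ∂hc) p) ≤ (∫ θ, ‖K θ‖ ∂hc) * nu p := by
  have h1 : toL (mul (fun k => ∫ θ, K θ * fourier (lin w k) θ ∂hc) p) =
      ∫ θ, K θ • toL (mul (fun k => chi k (dir w θ)) p) ∂hc := by
    simp only [toL_mul, chi_dir, Finset.smul_sum, smul_smul]
    rw [integral_finsetSum]
    · refine Finset.sum_congr rfl (fun k _ => ?_)
      rw [integral_smul_const, ← integral_mul_const]
      simp only [mul_assoc]
    · intro k _
      exact cont_integrable' (by fun_prop)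
  rw [nu_apply, h1]
  refine (norm_integral_le_integral_norm _).trans (le_of_eq ?_)
  rw [← integral_mul_const]
  congr 1
  funext θ
  rw [norm_smul, ← nu_apply, nu_translate]

/-- The Fejer kernel. -/
noncomputable def fej (σ : ℕ) (θ : AddCircle (1 : ℝ)) : ℝ :=
  ‖∑ a ∈ range σ, fourier (a : ℤ) θ‖ ^ 2 / σ

lemma fej_nonneg (σ : ℕ) (θ : AddCircle (1 : ℝ)) : 0 ≤ fej σ θ := by unfold fej; positivity

lemma continuous_fej (σ : ℕ) : Continuous (fej σ) := by unfold fej; fun_prop

lemma fej_eq (σ : ℕ) (θ : AddCircle (1 : ℝ)) :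
    (fej σ θ : ℂ) = (∑ a ∈ range σ, ∑ b ∈ range σ, fourier ((a : ℤ) - b) θ) / σ := by
  unfold fej
  push_cast
  congr 1
  rw [← Complex.mul_conj', map_sum, Finset.sum_mul_sum]
  refine Finset.sum_congr rfl (fun a _ => Finset.sum_congr rfl (fun b _ => ?_))
  rw [sub_eq_add_neg, fourier_add, fourier_neg]

lemma tent_count' {σ : ℕ} (hσ : 0 < σ) (m : ℤ) :
    (∑ a ∈ range σ, ∑ b ∈ range σ, if (a : ℤ) - b + m = 0 then (1 : ℂ) else 0) / σ = tent σ m := by
  rw [← tent_count hσ m]
  push_cast
  congr 1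
  refine Finset.sum_congr rfl (fun a _ => Finset.sum_congr rfl (fun b _ => ?_))
  split_ifs <;> simp

lemma integral_fej {σ : ℕ} (hσ : 0 < σ) (m : ℤ) :
    ∫ θ, (fej σ θ : ℂ) * fourier m θ ∂hc = tent σ m := by
  rw [← tent_count' hσ m]
  simp only [fej_eq, div_mul_eq_mul_div, Finset.sum_mul, ← fourier_add]
  rw [integral_div, integral_finsetSum]
  · congr 1
    refine Finset.sum_congr rfl (fun a _ => ?_)
    rw [integral_finsetSum]
    · exact Finset.sum_congr rfl (fun b _ => integral_fourier _)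
    · intro b _
      exact cont_integrable' (by fun_prop)
  · intro a _
    exact cont_integrable' (by fun_prop)

lemma integral_fej_one {σ : ℕ} (hσ : 0 < σ) : ∫ θ, fej σ θ ∂hc = 1 := by
  have h := integral_fej hσ 0
  simp only [fourier_zero, mul_one, tent_zero] at h
  rw [integral_complex_ofReal] at h
  exact_mod_cast h

theorem nu_tent {σ : ℕ} (hσ : 0 < σ) (w : ℕ → ℤ) (c : ℤ) (p : Tr) :
    nu (mul (fun k => (tent σ (lin w k - c) : ℂ)) p) ≤ nu p := by
  have h := nu_mul_kernel w (fun θ => (fej σ θ : ℂ) * fourier (-c) θ)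
    ((Complex.continuous_ofReal.comp (continuous_fej σ)).mul (by fun_prop)) p
  have h1 : ∀ k, ∫ θ, (fej σ θ : ℂ) * fourier (-c) θ * fourier (lin w k) θ ∂hc =
      tent σ (lin w k - c) := by
    intro k
    rw [← integral_fej hσ]
    congr 1
    funext θ
    rw [mul_assoc, ← fourier_add]
    congr 3
    ring
  have h2 : ∫ θ, ‖(fej σ θ : ℂ) * fourier (-c) θ‖ ∂hc = 1 := by
    refine Eq.trans ?_ (integral_fej_one hσ)
    congr 1
    funext θ
    rw [norm_mul, fourier_eq_ex, norm_ex, mul_one, Complex.norm_real,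
      Real.norm_of_nonneg (fej_nonneg _ _)]
  simp only [h1, h2, one_mul] at h
  exact h

lemma nu_mul_prod {α : Type} (s : Finset α) (m : α → Fr → ℂ)
    (h : ∀ a p, nu (mul (m a) p) ≤ nu p) (p : Tr) : nu (mul (∏ a ∈ s, m a) p) ≤ nu p := by
  classical
  induction s using Finset.induction_on with
  | empty =>
    refine le_of_eq ?_
    congr 1
    ext k
    simp
  | insert a s ha ih =>
    rw [Finset.prod_insert ha, ← mul_mul]
    exact (h a _).trans ih

end Pool.Agent.P.MP_f97ab1_an
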