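import Pool.Agent.P.MP_f97ab1_an.Level

set_option autoImplicit false

namespace Pool.Agent.P.MP_f97ab1_an

open Finset

variable {V : Type} [AddCommGroup V] [Module ℂ V]

/-- An algebraic basis of order type omega with uniformly bounded partial sum operators. -/
structure GoodSys (ν : Seminorm ℂ V) where
  κ : Type
  [oκ : LinearOrder κ]
  [iκ : Infinite κ]
  fin : ∀ a : κ, (Set.Iio a).Finite
  e : κ → V
  φ : κ → V →ₗ[ℂ] ℂ
  same : ∀ a, φ a (e a) = 1
  ne : ∀ a b, a ≠ b → φ a (e b) = 0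
  Pr : κ → V →ₗ[ℂ] V
  P_coef : ∀ a b v, φ b (Pr a v) = if b < a then φ b v else 0
  sep : ∀ v, (∀ b, φ b v = 0) → v = 0
  supp : ∀ v, {b | φ b v ≠ 0}.Finite
  K : ℝ
  K_nonneg : 0 ≤ K
  P_le : ∀ a v, ν (Pr a v) ≤ K * ν v

attribute [instance] GoodSys.oκ GoodSys.iκ

section Trunc

variable {ι : ℕ → Type} [∀ n, LinearOrder (ι n)]

/-- Indicator of an initial segment of the lexicographic sum, on the `n`-th block. -/
noncomputable def ind (a : Σₗ n, ι n) (n : ℕ) : ι n → ℂ :=
  fun i => if toLex (⟨n, i⟩ : Σ n, ι n) < a then 1 else 0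

lemma ind_lt (N : ℕ) (i₀ : ι N) (n : ℕ) (h : n < N) :
    ind (toLex (⟨N, i₀⟩ : Σ n, ι n)) n = 1 := by
  funext i
  simp only [ind, Pi.one_apply]
  rw [if_pos]
  exact Sigma.Lex.lt_def.2 (Or.inl h)

lemma ind_gt (N : ℕ) (i₀ : ι N) (n : ℕ) (h : N < n) :
    ind (toLex (⟨N, i₀⟩ : Σ n, ι n)) n = 0 := by
  funext i
  simp only [ind, Pi.zero_apply]
  rw [if_neg]
  intro h'
  rcases Sigma.Lex.lt_def.1 h' with h' | ⟨h', _⟩
  · exact absurd h' (not_lt.2 h.le)
  · exact absurd h' h.ne'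

lemma ind_eq (N : ℕ) (i₀ : ι N) : ind (toLex (⟨N, i₀⟩ : Σ n, ι n)) N = cut i₀ := by
  funext i
  simp only [ind, cut]
  congr 1
  apply propext
  constructor
  · intro h'
    rcases Sigma.Lex.lt_def.1 h' with h' | ⟨_, h'⟩
    · exact absurd h' (lt_irrefl _)
    · exact h'
  · intro h'
    exact Sigma.Lex.lt_def.2 (Or.inr ⟨rfl, h'⟩)

/-- Truncation in the direct sum. -/
noncomputable def trunc (a : Σₗ n, ι n) : DS (fun n => ι n → ℂ) →ₗ[ℂ] DS (fun n => ι n → ℂ) :=
  glue (fun n => (LinearMap.mulLeft ℂ (ind a n)).comp (DS.proj n)) (fun c => by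
    refine (show {n | c.1 n ≠ 0}.Finite from c.2).subset ?_
    intro n hn h
    exact hn (by simp [h]))

lemma trunc_apply (a : Σₗ n, ι n) (c : DS (fun n => ι n → ℂ)) (n : ℕ) :
    (trunc a c).1 n = ind a n * c.1 n := rfl

/-- From an isomorphism with the coordinate space to a good system. -/
theorem goodSys_of_equiv [∀ n, Fintype (ι n)] [∀ n, Nonempty (ι n)] {ν : Seminorm ℂ V}
    (Φ : V ≃ₗ[ℂ] DS (fun n => ι n → ℂ)) (K : ℝ) (hK : 0 ≤ K)
    (h : ∀ a v, ν (Φ.symm (trunc a (Φ v))) ≤ K * ν v) : Nonempty (GoodSys ν) := by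
  classical
  have hinf : Infinite (Σₗ n, ι n) :=
    Infinite.of_injective (fun n => toLex (⟨n, Classical.arbitrary (ι n)⟩ : Σ n, ι n))
      (fun n m hnm => congrArg (fun x => (ofLex x).1) hnm)
  have hfib : ∀ s : Set ℕ, s.Finite → {b : Σₗ n, ι n | (ofLex b).1 ∈ s}.Finite := by
    intro s hs
    have : {b : Σₗ n, ι n | (ofLex b).1 ∈ s} =
        ⋃ n ∈ s, Set.range (fun i : ι n => toLex (⟨n, i⟩ : Σ n, ι n)) := by
      ext b
      obtain ⟨⟨n, i⟩, rfl⟩ := toLex.surjective b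
      simp only [ofLex_toLex, Set.mem_ofPred_eq, Set.mem_iUnion, Set.mem_range]
      constructor
      · intro hn
        exact ⟨n, hn, i, rfl⟩
      · rintro ⟨m, hm, j, hj⟩
        have : m = n := congrArg (fun x => (ofLex x).1) hj
        exact this ▸ hm
    rw [this]
    exact hs.biUnion (fun n _ => Set.finite_range _)
  set sg : (Σₗ n, ι n) → DS (fun n => ι n → ℂ) := fun b =>
    ⟨Pi.single (ofLex b).1 (Pi.single (ofLex b).2 1), (Set.finite_singleton (ofLex b).1).subset (by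
      intro n hn
      by_contra h'
      exact hn (Pi.single_eq_of_ne h' _))⟩ with hsg
  set φ : (Σₗ n, ι n) → V →ₗ[ℂ] ℂ := fun b =>
    (LinearMap.proj (ofLex b).2).comp ((DS.proj (ofLex b).1).comp Φ.toLinearMap) with hφ
  have φa : ∀ b v, φ b v = (Φ v).1 (ofLex b).1 (ofLex b).2 := fun b v => rfl
  refine ⟨{ κ := Σₗ n, ι n, fin := ?_, e := fun b => Φ.symm (sg b), φ := φ, same := ?_, ne := ?_,
            Pr := fun a => Φ.symm.toLinearMap.comp ((trunc a).comp Φ.toLinearMap), P_coef := ?_,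
            sep := ?_, supp := ?_, K := K, K_nonneg := hK, P_le := h }⟩
  · intro a
    refine (hfib (Set.Iic (ofLex a).1) (Set.finite_Iic _)).subset ?_
    intro b hb
    rcases Sigma.Lex.lt_def.1 hb with h' | ⟨h', _⟩
    · exact le_of_lt h'
    · exact le_of_eq h'
  · intro a
    rw [φa, Φ.apply_symm_apply]
    simp [hsg]
  · intro a b hab
    rw [φa, Φ.apply_symm_apply]
    obtain ⟨⟨n, i⟩, rfl⟩ := toLex.surjective a
    obtain ⟨⟨m, j⟩, rfl⟩ := toLex.surjective b
    simp only [hsg, ofLex_toLex]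
    by_cases hnm : n = m
    · subst hnm
      rw [Pi.single_eq_same]
      exact Pi.single_eq_of_ne (fun hij : i = j => hab (by rw [hij])) _
    · rw [Pi.single_eq_of_ne hnm]
      rfl
  · intro a b v
    rw [φa, φa]
    simp only [LinearMap.comp_apply, LinearEquiv.coe_coe, LinearEquiv.apply_symm_apply,
      trunc_apply, Pi.mul_apply, ind]
    have : toLex (⟨(ofLex b).1, (ofLex b).2⟩ : Σ n, ι n) = b := rfl
    rw [this]
    split_ifs <;> simp
  · intro v hv
    apply Φ.injective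
    rw [map_zero]
    refine DS.ext' (fun n => funext (fun i => ?_))
    exact hv (toLex ⟨n, i⟩)
  · intro v
    refine (hfib _ (show {n | (Φ v).1 n ≠ 0}.Finite from (Φ v).2)).subset ?_
    intro b hb h'
    apply hb
    rw [φa, h']
    rfl

end Trunc

theorem goodSys_of_blocks {ν : Seminorm ℂ V} (ρ : ℕ → V →ₗ[ℂ] V) (ρ1 : ρ 1 = 0)
    (ρlt : ∀ n m x, n < m → ρ n (ρ m x) = ρ n x) (ρgt : ∀ n m x, n < m → ρ m (ρ n x) = ρ n x)
    (ρle : ∀ n x, ν (ρ n x) ≤ 2 * ν x) (ρev : ∀ x, ∃ N, ∀ n, N ≤ n → ρ n x = x)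
    {ι : ℕ → Type} [∀ n, LinearOrder (ι n)] [∀ n, Fintype (ι n)] [∀ n, Nonempty (ι n)]
    (M : ∀ n, Seminorm ℂ (ι n → ℂ)) (a : ∀ n, V →ₗ[ℂ] (ι n → ℂ)) (b : ∀ n, (ι n → ℂ) →ₗ[ℂ] V)
    (K : ℝ) (hK : 1 ≤ K)
    (hba : ∀ n x, b n (a n (ρ (n + 2) x - ρ (n + 1) x)) = ρ (n + 2) x - ρ (n + 1) x)
    (ha : ∀ n x, M n (a n (ρ (n + 2) x - ρ (n + 1) x)) ≤ K * ν (ρ (n + 2) x - ρ (n + 1) x))
    (hb : ∀ n c, ν (b n c) ≤ K * M n c)
    (hcut : ∀ n i c, M n (cut i * c) ≤ K * M n c)
    (K₂ : ℝ) (hK₂ : 0 ≤ K₂)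
    (F : Fam (C := fun p : ℕ × ℕ => ι p.2 → ℂ) ν (fun p => M p.2) K₂) :
    Nonempty (GoodSys ν) := by
  classical
  have hK0 : 0 ≤ K := by linarith
  set D : ℕ → V →ₗ[ℂ] V := fun n => ρ (n + 2) - ρ (n + 1) with hD
  set U : ℕ → V →ₗ[ℂ] V := fun n => ρ (n + 3) - ρ n with hU
  have Da : ∀ n x, D n x = ρ (n + 2) x - ρ (n + 1) x := fun n x => rfl
  have Ua : ∀ n x, U n x = ρ (n + 3) x - ρ n x := fun n x => rfl
  have Dle : ∀ n x, ν (D n x) ≤ 4 * ν x := by
    intro n x
    have := map_sub_le_add ν (ρ (n + 2) x) (ρ (n + 1) x)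
    have := ρle (n + 2) x
    have := ρle (n + 1) x
    rw [Da]
    linarith
  have Ule : ∀ n x, ν (U n x) ≤ 4 * ν x := by
    intro n x
    have := map_sub_le_add ν (ρ (n + 3) x) (ρ n x)
    have := ρle (n + 3) x
    have := ρle n x
    rw [Ua]
    linarith
  have aD : ∀ n x, M n (a n (D n x)) ≤ 4 * K * ν x := by
    intro n x
    have e1 : M n (a n (D n x)) ≤ K * ν (D n x) := ha n x
    have e2 := mul_le_mul_of_nonneg_left (Dle n x) hK0
    linarith
  have Dev : ∀ x, ∃ N, (∀ n, N ≤ n → ρ n x = x) ∧ ∀ n, N ≤ n → D n x = 0 := by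
    intro x
    obtain ⟨N, hN⟩ := ρev x
    refine ⟨N, hN, fun n hn => ?_⟩
    rw [Da, hN _ (by omega), hN _ (by omega), sub_self]
  have hfin : ∀ x, {n | (a n).comp (D n) x ≠ 0}.Finite := by
    intro x
    obtain ⟨N, _, hN⟩ := Dev x
    refine (Set.finite_Iio N).subset ?_
    intro n hn
    by_contra h
    exact hn (by simp [hN n (not_lt.1 h)])
  set α : V →ₗ[ℂ] DS (fun n => ι n → ℂ) := glue (fun n => (a n).comp (D n)) hfin with hα
  have αa : ∀ x n, (α x).1 n = a n (D n x) := fun x n => rfl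
  set β : DS (fun n => ι n → ℂ) →ₗ[ℂ] V := lsum (fun n => (U n).comp (b n)) with hβ
  have UD : ∀ n x, U n (D n x) = D n x := by
    intro n x
    rw [Ua, Da, map_sub, map_sub, ρgt _ _ _ (by omega), ρgt _ _ _ (by omega),
      ρlt _ _ _ (by omega), ρlt _ _ _ (by omega)]
    abel
  have Dsum : ∀ N x, ∑ n ∈ range N, D n x = ρ (N + 1) x := by
    intro N x
    induction N with
    | zero => simp [ρ1]
    | succ N ih => rw [Finset.sum_range_succ, ih, Da]; abel
  have βα : ∀ x, β (α x) = x := by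
    intro x
    obtain ⟨N, hN1, hN2⟩ := Dev x
    rw [hβ, lsum_eq_sum _ _ (range N)]
    · have : ∀ n, (U n).comp (b n) ((α x).1 n) = D n x := by
        intro n
        rw [LinearMap.comp_apply, αa, Da, hba, ← Da, UD]
      simp only [this]
      rw [Dsum, hN1 _ (by omega)]
    · intro n hn
      rw [αa, hN2 n (by simpa using hn)]
      simp
  have βle : ∀ c, ν (β c) ≤ (4 * K) * l1 M c := by
    refine lsum_le ν M _ _ (fun n y => ?_)
    have e1 := Ule n (b n y)
    have e2 := hb n y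
    rw [LinearMap.comp_apply]
    linarith
  have DU : ∀ m n y, m ∉ Finset.Icc (n - 2) (n + 2) → D m (U n y) = 0 := by
    intro m n y h
    rw [Finset.mem_Icc] at h
    rw [Da, Ua, map_sub, map_sub]
    rcases (show m + 2 < n ∨ n + 2 < m by omega) with h | h
    · rw [ρlt _ _ _ (by omega), ρlt _ _ _ (by omega), ρlt _ _ _ (by omega), ρlt _ _ _ (by omega)]
      abel
    · rw [ρgt _ _ _ (by omega), ρgt _ _ _ (by omega), ρgt _ _ _ (by omega), ρgt _ _ _ (by omega)]
      abel
  have αβle : ∀ c, l1 M (α (β c)) ≤ (80 * K * K) * l1 M c := by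
    intro c
    rw [hβ, map_lsum]
    refine lsum_le (l1 M) M _ _ (fun n y => ?_) c
    simp only [LinearMap.comp_apply]
    have e1 := l1_le_card M (α (U n (b n y))) (Finset.Icc (n - 2) (n + 2))
      (4 * K * ν (U n (b n y))) (fun m hm => by rw [αa, DU m n _ hm, map_zero])
      (fun m => aD m _)
    have e2 : ((Finset.Icc (n - 2) (n + 2)).card : ℝ) ≤ 5 := by
      rw [Nat.card_Icc]
      exact_mod_cast (by omega : n + 2 + 1 - (n - 2) ≤ 5)
    have e3 := Ule n (b n y)
    have e4 := hb n y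
    have e5 : ν (U n (b n y)) ≤ 4 * (K * M n y) := by linarith
    have e6 := apply_nonneg ν (U n (b n y))
    calc l1 M (α (U n (b n y))) ≤ _ := e1
      _ ≤ 5 * (4 * K * ν (U n (b n y))) := mul_le_mul_of_nonneg_right e2 (by positivity)
      _ ≤ 5 * (4 * K * (4 * (K * M n y))) := by gcongr
      _ = 80 * K * K * M n y := by ring
  set Nn : DS (fun n => ι n → ℂ) →ₗ[ℂ] DS (fun n => ι n → ℂ) := LinearMap.id - α.comp β with hNn
  have Na : ∀ c, Nn c = c - α (β c) := fun c => rfl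
  have Nle : ∀ c, l1 M (Nn c) ≤ (1 + 80 * K * K) * l1 M c := by
    intro c
    have e1 := map_sub_le_add (l1 M) c (α (β c))
    have e2 := αβle c
    rw [Na]
    linarith
  have βN : ∀ c, β (Nn c) = 0 := by
    intro c
    rw [Na, map_sub, βα, sub_self]
  have Nα : ∀ x, Nn (α x) = 0 := by
    intro x
    rw [Na, βα, sub_self]
  set tri : Seminorm ℂ (DS (fun n => ι n → ℂ)) := ν.comp β + (l1 M).comp Nn with htri
  have tria : ∀ c, tri c = ν (β c) + l1 M (Nn c) := fun c => rfl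
  set K1 : ℝ := 4 * K + (1 + 80 * K * K) with hK1
  have hK1' : 0 ≤ K1 := by positivity
  have trile : ∀ c, tri c ≤ K1 * l1 M c := by
    intro c
    have e1 := βle c
    have e2 := Nle c
    rw [tria, hK1]
    linarith
  have triα : ∀ x, tri (α x) = ν x := by
    intro x
    rw [tria, βα, Nα, map_zero, add_zero]
  have indle : ∀ (s : Σₗ n, ι n) n y, M n (ind s n * y) ≤ K * M n y := by
    intro s n y
    obtain ⟨⟨N, i₀⟩, rfl⟩ := toLex.surjective s
    have p := apply_nonneg (M n) y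
    rcases lt_trichotomy n N with h | h | h
    · rw [ind_lt N i₀ n h, one_mul]
      nlinarith
    · subst h
      rw [ind_eq]
      exact hcut _ _ _
    · rw [ind_gt N i₀ n h, zero_mul, map_zero]
      positivity
  have truncle : ∀ s c, l1 M (trunc s c) ≤ K * l1 M c := fun s c =>
    l1_mono M _ _ K hK0 (fun n => indle s n _)
  have truncα : ∀ s x, tri (trunc s (α x)) ≤ (2 + K1 * (3 * (4 * K * K + 8 * K))) * ν x := by
    intro s x
    obtain ⟨⟨N, i₀⟩, rfl⟩ := toLex.surjective s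
    set s : Σₗ n, ι n := toLex ⟨N, i₀⟩ with hs
    have e0 : trunc s (α x) = α (ρ N x) + (trunc s (α x) - α (ρ N x)) := by abel
    have e1 := map_add_le_add tri (α (ρ N x)) (trunc s (α x) - α (ρ N x))
    rw [← e0, triα] at e1
    have e2 := ρle N x
    have e3 := trile (trunc s (α x) - α (ρ N x))
    have p := apply_nonneg ν x
    have e4 := l1_le_card M (trunc s (α x) - α (ρ N x)) (Finset.Icc (N - 2) N)
      ((4 * K * K + 8 * K) * ν x) (fun n hn => by
        rw [Finset.mem_Icc] at hn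
        change ind s n * (α x).1 n - (α (ρ N x)).1 n = 0
        rw [αa, αa, Da n (ρ N x)]
        rcases (show n + 2 < N ∨ N < n by omega) with h | h
        · rw [hs, ind_lt N i₀ n (by omega), one_mul, ρlt _ _ _ (by omega), ρlt _ _ _ (by omega),
            Da, sub_self]
        · rw [hs, ind_gt N i₀ n h, zero_mul, ρgt _ _ _ (by omega), ρgt _ _ _ (by omega)]
          simp)
      (fun n => by
        change M n (ind s n * (α x).1 n - (α (ρ N x)).1 n) ≤ _
        rw [αa, αa]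
        have f1 := map_sub_le_add (M n) (ind s n * a n (D n x)) (a n (D n (ρ N x)))
        have f2 := indle s n (a n (D n x))
        have f3 := mul_le_mul_of_nonneg_left (aD n x) hK0
        have f4 := aD n (ρ N x)
        have f5 := mul_le_mul_of_nonneg_left e2 (by positivity : 0 ≤ 4 * K)
        nlinarith)
    have e5 : ((Finset.Icc (N - 2) N).card : ℝ) ≤ 3 := by
      rw [Nat.card_Icc]
      exact_mod_cast (by omega : N + 1 - (N - 2) ≤ 3)
    have e6 : l1 M (trunc s (α x) - α (ρ N x)) ≤ 3 * ((4 * K * K + 8 * K) * ν x) :=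
      e4.trans (mul_le_mul_of_nonneg_right e5 (by positivity))
    have e7 := mul_le_mul_of_nonneg_left e6 hK1'
    nlinarith
  set K3 : ℝ := (2 + K1 * (3 * (4 * K * K + 8 * K))) + K1 * K with hK3
  have hK3' : 0 ≤ K3 := by positivity
  have trunctri : ∀ s c, tri (trunc s c) ≤ K3 * tri c := by
    intro s c
    have e0 : trunc s c = trunc s (α (β c)) + trunc s (Nn c) := by
      rw [← map_add, Na]
      congr 1
      abel
    have e1 := map_add_le_add tri (trunc s (α (β c))) (trunc s (Nn c))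
    rw [← e0] at e1
    have e2 := truncα s (β c)
    have e3 := trile (trunc s (Nn c))
    have e4 := mul_le_mul_of_nonneg_left (truncle s (Nn c)) hK1'
    have p1 := apply_nonneg ν (β c)
    have p2 := apply_nonneg (l1 M) (Nn c)
    have p3 : 0 ≤ (2 + K1 * (3 * (4 * K * K + 8 * K))) * l1 M (Nn c) := by positivity
    have p4 : 0 ≤ K1 * K * ν (β c) := by positivity
    rw [tria c, hK3]
    nlinarith
  obtain ⟨F1⟩ := F.sum
  set W : Submodule ℂ (DS (fun n => ι n → ℂ)) := LinearMap.ker β with hW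
  set r : DS (fun n => ι n → ℂ) →ₗ[ℂ] W := Nn.codRestrict W (fun c => βN c) with hr
  have ra : ∀ c, (r c).1 = Nn c := fun c => rfl
  have hri : ∀ w : W, r (W.subtype w) = w := by
    intro w
    apply Subtype.ext
    have : β w.1 = 0 := w.2
    rw [ra, Na]
    simp [this]
  set MW : Seminorm ℂ W := (l1 M).comp W.subtype with hMW
  have hi : ∀ w : W, l1 M (W.subtype w) ≤ (1 + 80 * K * K) * MW w := by
    intro w
    have p := apply_nonneg (l1 M) (W.subtype w)
    have p' : 0 ≤ 80 * K * K * l1 M (W.subtype w) := by positivity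
    change _ ≤ _ * l1 M (W.subtype w)
    nlinarith
  have hr' : ∀ c, MW (r c) ≤ (1 + 80 * K * K) * l1 M c := fun c => Nle c
  have F2 : Fam (C := fun _ : ℕ => W) ν (fun _ => MW) (K₂ * (1 + 80 * K * K)) :=
    Fam.sub (W := W) (M' := MW) hK₂ (by positivity) F1 W.subtype r hri hi hr'
  obtain ⟨e, K', hK', he1, he2⟩ := F2.absorb (by positivity)
  set Θ : (V × W) ≃ₗ[ℂ] DS (fun n => ι n → ℂ) :=
    LinearEquiv.ofLinearMap (α.coprod W.subtype) (β.prod r)
      (LinearMap.ext (fun c => by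
        change α (β c) + Nn c = c
        rw [Na]
        abel))
      (LinearMap.ext (fun p => by
        obtain ⟨x, w⟩ := p
        have hw : β w.1 = 0 := w.2
        refine Prod.ext ?_ ?_
        · change β (α x + w.1) = x
          rw [map_add, βα, hw, add_zero]
        · apply Subtype.ext
          change Nn (α x + w.1) = w.1
          rw [map_add, Nα, Na, hw, map_zero, zero_add, sub_zero])) with hΘ
  refine goodSys_of_equiv (e.trans Θ) (K' * K3 * K') (by positivity) (fun s v => ?_)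
  have g1 : ∀ c, ν ((e.trans Θ).symm c) ≤ K' * tri c := fun c => he2 (β c) (r c)
  have g2 : tri ((e.trans Θ) v) ≤ K' * ν v := by
    have hw : β (e v).2.1 = 0 := (e v).2.2
    have : (e.trans Θ) v = α (e v).1 + (e v).2.1 := rfl
    rw [this, tria, map_add β, map_add Nn, βα, Nα, Na, hw, map_zero, zero_add, sub_zero, add_zero]
    exact he1 v
  calc ν ((e.trans Θ).symm (trunc s ((e.trans Θ) v))) ≤ K' * tri (trunc s ((e.trans Θ) v)) := g1 _
    _ ≤ K' * (K3 * tri ((e.trans Θ) v)) := mul_le_mul_of_nonneg_left (trunctri _ _) hK'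
    _ ≤ K' * (K3 * (K' * ν v)) := by gcongr
    _ = K' * K3 * K' * ν v := by ring

end Pool.Agent.P.MP_f97ab1_an
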